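import Pool.Agent.Work.Monodromy.Interface13

/-!
# ABS: the values in degree `d` are bounded by the values in degree `d - 1` (helper65)
-/

set_option autoImplicit false
set_option linter.unusedSectionVars false

namespace Pool.Agent.Mono.NP

open MvPolynomial Filter Topology

namespace ABSAux

section

variable {ι κ : Type} [Fintype ι] [DecidableEq ι] [Fintype κ] [DecidableEq κ]

/-- the value of `Φ` at the point `(k, u)` plus an exponent -/
noncomputable def val (w : κ → ι → ℕ) (Φ : ℤ → (ι → ℤ) → ℂ) (k : ℤ) (u : ι → ℤ)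
    (m : κ →₀ ℕ) : ℂ :=
  Φ (k + (m.degree : ℕ)) (fun j => u j + ∑ v, (m v : ℤ) * w v j)

/-- the functional `Λ` -/
noncomputable def LamA (w : κ → ι → ℕ) (Φ : ℤ → (ι → ℤ) → ℂ) (k : ℤ) (u : ι → ℤ) :
    MvPolynomial κ ℂ →ₗ[ℂ] ℂ :=
  (MvPolynomial.basisMonomials κ ℂ).constr ℂ (val w Φ k u)

theorem LamA_monomial (w : κ → ι → ℕ) (Φ : ℤ → (ι → ℤ) → ℂ) (k : ℤ) (u : ι → ℤ) (m : κ →₀ ℕ) :
    LamA w Φ k u (monomial m 1) = val w Φ k u m := by
  have h := (MvPolynomial.basisMonomials κ ℂ).constr_basis ℂ (val w Φ k u) m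
  rw [MvPolynomial.coe_basisMonomials] at h
  exact h

theorem val_congr (w : κ → ι → ℕ) (Φ : ℤ → (ι → ℤ) → ℂ) (k : ℤ) (u : ι → ℤ) (m m' : κ →₀ ℕ)
    (h1 : m.degree = m'.degree) (h2 : ∀ i, ∑ v, m v * w v i = ∑ v, m' v * w v i) :
    val w Φ k u m = val w Φ k u m' := by
  unfold val
  rw [h1]
  congr 1
  funext j
  have := h2 j
  have h3 : (∑ v, (m v : ℤ) * w v j) = ∑ v, (m' v : ℤ) * w v j := by exact_mod_cast this
  rw [h3]

theorem val_add_single (w : κ → ι → ℕ) (Φ : ℤ → (ι → ℤ) → ℂ) (k : ℤ) (u : ι → ℤ) (m : κ →₀ ℕ)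
    (v : κ) : val w Φ k u (m + Finsupp.single v 1) =
      Φ (k + (m.degree : ℕ) + 1) (fun j => (u j + ∑ v, (m v : ℤ) * w v j) + w v j) := by
  unfold val
  have h1 : (m + Finsupp.single v 1).degree = m.degree + 1 := by
    rw [map_add, Finsupp.degree_single]
  rw [h1]
  have h2 : k + ((m.degree + 1 : ℕ) : ℤ) = k + (m.degree : ℕ) + 1 := by push_cast; ring
  rw [h2]
  congr 1
  funext j
  have h3 : ∑ v', (((m + Finsupp.single v 1 : κ →₀ ℕ) v' : ℕ) : ℤ) * (w v' j : ℤ) =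
      ∑ v', (m v' : ℤ) * w v' j + w v j := by
    have h4 : ∀ v', (((m + Finsupp.single v 1 : κ →₀ ℕ) v' : ℕ) : ℤ) * (w v' j : ℤ) =
        (m v' : ℤ) * w v' j + if v = v' then (w v' j : ℤ) else 0 := by
      intro v'
      rw [Finsupp.add_apply, Finsupp.single_apply]
      split_ifs with h
      · push_cast; ring
      · push_cast; ring
    rw [Finset.sum_congr rfl (fun v' _ => h4 v'), Finset.sum_add_distrib, Finset.sum_ite_eq]
    simp
  rw [h3]
  ring

theorem LamA_mul_lin (w : κ → ι → ℕ) (Φ : ℤ → (ι → ℤ) → ℂ) (k : ℤ) (u : ι → ℤ) (m : κ →₀ ℕ)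
    (e : κ → ℂ) : LamA w Φ k u (monomial m 1 * ∑ v, C (e v) * X v) =
      ∑ v, e v * val w Φ k u (m + Finsupp.single v 1) := by
  rw [Finset.mul_sum, map_sum]
  refine Finset.sum_congr rfl fun v _ => ?_
  have h1 : (monomial m (1 : ℂ)) * (C (e v) * X v) =
      e v • monomial (m + Finsupp.single v 1) (1 : ℂ) := by
    rw [← MvPolynomial.C_mul', mul_left_comm, MvPolynomial.X, MvPolynomial.monomial_mul, one_mul]
  rw [h1, map_smul, LamA_monomial, smul_eq_mul]

/-- the coefficients in the linear form `LinF` -/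
noncomputable def cfA (w : κ → ι → ℕ) (a : κ → ℂ) : Option ι → κ → ℂ
  | none => a
  | some i => fun v => (w v i : ℂ) * a v

theorem LinF_eq (w : κ → ι → ℕ) (a : κ → ℂ) (o : Option ι) :
    LinF w a o = ∑ v, C (cfA w a o v) * X v := by
  cases o with
  | none => rfl
  | some i => rfl

theorem LinF_split (w : κ → ι → ℕ) (a b : κ → ℂ) (o : Option ι) :
    LinF w a o = LinF w b o + ∑ v, C (cfA w (fun v => a v - b v) o v) * X v := by
  rw [LinF_eq, LinF_eq, ← Finset.sum_add_distrib]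
  refine Finset.sum_congr rfl fun v _ => ?_
  rw [← add_mul, ← C_add]
  congr 2
  cases o with
  | none => simp [cfA]
  | some i => simp only [cfA]; ring

/-- the factor in the relations -/
noncomputable def fac (w : κ → ι → ℕ) (ν : ι → ℚ) (β : ℚ) (k : ℤ) (u : ι → ℤ) (m : κ →₀ ℕ) :
    Option ι → ℂ
  | none => (β : ℂ) - ((k + (m.degree : ℕ) : ℤ) : ℂ)
  | some i => -(((u i + ∑ v, (m v : ℤ) * w v i + 1 : ℤ) : ℂ) + (ν i : ℂ))

theorem LamA_rel (w : κ → ι → ℕ) (b : κ → ℂ) (J : Finset ι) (ν : ι → ℚ) (β : ℚ) (k₀ : ℤ)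
    (Φ : ℤ → (ι → ℤ) → ℂ) (hR : Rl w b J ν β k₀ Φ) (k : ℤ) (u : ι → ℤ)
    (hu : ∀ j, j ∉ J → 0 ≤ u j) (m : κ →₀ ℕ) (o : Option ι) :
    LamA w Φ k u (monomial m 1 * LinF w b o) =
      fac w ν β k u m o * val w Φ k u m := by
  have hu' : ∀ j, j ∉ J → 0 ≤ u j + ∑ v, (m v : ℤ) * w v j := by
    intro j hj
    have := hu j hj
    have h2 : 0 ≤ ∑ v, (m v : ℤ) * w v j := Finset.sum_nonneg fun v _ => by positivity
    omega
  rw [LinF_eq, LamA_mul_lin]
  cases o with
  | none =>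
    have h := hR.2.1 (k + (m.degree : ℕ)) (fun j => u j + ∑ v, (m v : ℤ) * w v j) hu'
    simp only [cfA, fac, val_add_single]
    exact h
  | some i =>
    have hu'' : ∀ j, j ∉ J → 0 ≤ (u j + ∑ v, (m v : ℤ) * w v j) + (if j = i then 1 else 0) := by
      intro j hj
      have := hu' j hj
      split_ifs <;> omega
    have h := hR.1 (k + (m.degree : ℕ))
      (fun j => (u j + ∑ v, (m v : ℤ) * w v j) + (if j = i then 1 else 0)) i hu''
    simp only [cfA, fac, val_add_single]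
    unfold val
    have e1 : ∀ v, (fun j => (u j + ∑ v, (m v : ℤ) * w v j) + (if j = i then 1 else 0) + w v j -
        if j = i then 1 else 0) = (fun j => (u j + ∑ v, (m v : ℤ) * w v j) + w v j) := by
      intro v; funext j; ring
    have e2 : (fun j => (u j + ∑ v, (m v : ℤ) * w v j) + (if j = i then 1 else 0) -
        if j = i then 1 else 0) = (fun j => (u j + ∑ v, (m v : ℤ) * w v j)) := by
      funext j; ring
    simp only [e1, e2] at h
    simp only [if_true] at h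
    rw [← h]
    refine Finset.sum_congr rfl fun v _ => ?_
    ring

theorem LamA_sum (w : κ → ι → ℕ) (Φ : ℤ → (ι → ℤ) → ℂ) (k : ℤ) (u : ι → ℤ)
    (G L : MvPolynomial κ ℂ) :
    LamA w Φ k u (G * L) = ∑ m ∈ G.support, G.coeff m * LamA w Φ k u (monomial m 1 * L) := by
  conv_lhs => rw [G.as_sum, Finset.sum_mul, map_sum]
  refine Finset.sum_congr rfl fun m _ => ?_
  have h1 : (monomial m (G.coeff m)) * L = G.coeff m • (monomial m (1 : ℂ) * L) := by
    rw [← smul_mul_assoc, MvPolynomial.smul_monomial, smul_eq_mul, mul_one]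
  rw [h1, map_smul, smul_eq_mul]

/-- all exponents of degree `d` -/
def Dg (κ : Type) [Fintype κ] [DecidableEq κ] (d : ℕ) : Finset (κ →₀ ℕ) :=
  Finset.finsuppAntidiag Finset.univ d

theorem mem_Dg (d : ℕ) (m : κ →₀ ℕ) : m ∈ Dg κ d ↔ m.degree = d := by
  unfold Dg
  rw [Finset.mem_finsuppAntidiag, Finsupp.degree_eq_sum]
  constructor
  · rintro ⟨h, _⟩
    exact h
  · intro h
    exact ⟨h, Finset.subset_univ _⟩

/-- a bound for the coefficients of all linear forms -/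
noncomputable def Kc (w : κ → ι → ℕ) : ℝ := ∑ v, (1 + ∑ i, (w v i : ℝ))

theorem Kc_nonneg (w : κ → ι → ℕ) : 0 ≤ Kc w :=
  Finset.sum_nonneg fun v _ => by positivity

theorem sum_cfA_le (w : κ → ι → ℕ) (e : κ → ℂ) (δ : ℝ) (hδ : 0 ≤ δ) (he : ∀ v, ‖e v‖ ≤ δ)
    (o : Option ι) : ∑ v, ‖cfA w e o v‖ ≤ δ * Kc w := by
  unfold Kc
  rw [Finset.mul_sum]
  refine Finset.sum_le_sum fun v _ => ?_
  have h0 : 0 ≤ ∑ i, (w v i : ℝ) := Finset.sum_nonneg fun i _ => by positivity
  cases o with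
  | none =>
    simp only [cfA]
    nlinarith [he v]
  | some i =>
    simp only [cfA]
    rw [norm_mul, Complex.norm_natCast]
    have h1 : (w v i : ℝ) ≤ ∑ i, (w v i : ℝ) :=
      Finset.single_le_sum (f := fun i => (w v i : ℝ)) (fun i _ => by positivity)
        (Finset.mem_univ i)
    have h2 : (w v i : ℝ) * ‖e v‖ ≤ (∑ i, (w v i : ℝ)) * δ :=
      mul_le_mul h1 (he v) (norm_nonneg _) h0
    nlinarith

end

end ABSAux

open ABSAux in
theorem stmt_ABS (hN : Stmt_NUL) : Stmt_ABS := by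
  intro ι κ _ _ _ _ w a ha
  obtain ⟨d, hd, hm⟩ := hN ι κ w a ha
  have hm' : ∀ m : κ →₀ ℕ, ∃ G : Option ι → MvPolynomial κ ℂ, m.degree = d →
      (∀ o, (G o).IsHomogeneous (d - 1)) ∧
        ∀ Λ : MvPolynomial κ ℂ →ₗ[ℂ] ℂ,
          (∀ m m' : κ →₀ ℕ, m.degree = m'.degree →
            (∀ i, ∑ v, m v * w v i = ∑ v, m' v * w v i) →
              Λ (monomial m 1) = Λ (monomial m' 1)) →
          Λ (monomial m 1) = ∑ o, Λ (G o * LinF w a o) := by
    intro m
    by_cases h : m.degree = d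
    · obtain ⟨G, hG⟩ := hm m h
      exact ⟨G, fun _ => hG⟩
    · exact ⟨fun _ => 0, fun h' => absurd h' h⟩
  choose G hG using hm'
  -- the constant
  let A : (κ →₀ ℕ) → ℝ := fun m => ∑ o, ∑ m' ∈ (G m o).support, ‖(G m o).coeff m'‖
  have hA : ∀ m, 0 ≤ A m := fun m =>
    Finset.sum_nonneg fun o _ => Finset.sum_nonneg fun m' _ => norm_nonneg _
  let Cc : ℝ := (∑ m ∈ Dg κ d, A m) * Kc w
  have hC : 0 ≤ Cc := mul_nonneg (Finset.sum_nonneg fun m _ => hA m) (Kc_nonneg w)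
  refine ⟨d, 1 / (2 * (Cc + 1)), hd, by positivity, ?_⟩
  intro J ν β k₀ k u hu
  -- the bound
  let B1 : (κ →₀ ℕ) → ℝ := fun m =>
    ∑ o, ∑ m' ∈ (G m o).support, ‖(G m o).coeff m'‖ * ‖fac w ν β k u m' o‖
  have hB1 : ∀ m, 0 ≤ B1 m := fun m =>
    Finset.sum_nonneg fun o _ => Finset.sum_nonneg fun m' _ =>
      mul_nonneg (norm_nonneg _) (norm_nonneg _)
  have hB : 0 ≤ ∑ m ∈ Dg κ d, B1 m := Finset.sum_nonneg fun m _ => hB1 m
  refine ⟨2 * ∑ m ∈ Dg κ d, B1 m, by positivity, ?_⟩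
  intro b Φ S hb hR hS hlow
  set δ : ℝ := 1 / (2 * (Cc + 1)) with hδ
  have hδ0 : 0 ≤ δ := by positivity
  let Mx : ℝ := ∑ m ∈ Dg κ d, ‖val w Φ k u m‖
  have hMx : 0 ≤ Mx := Finset.sum_nonneg fun m _ => norm_nonneg _
  have hval_low : ∀ m : κ →₀ ℕ, m.degree = d - 1 → ‖val w Φ k u m‖ ≤ S := by
    intro m hm
    have := hlow m hm
    unfold val
    rw [hm]
    exact this
  have hval_high : ∀ m : κ →₀ ℕ, m.degree = d → ‖val w Φ k u m‖ ≤ Mx := by
    intro m hm
    exact Finset.single_le_sum (f := fun m => ‖val w Φ k u m‖) (fun m _ => norm_nonneg _)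
      ((mem_Dg d m).2 hm)
  have key : ∀ m ∈ Dg κ d, ‖val w Φ k u m‖ ≤ B1 m * S + A m * (δ * Kc w * Mx) := by
    intro m hmD
    have hmd := (mem_Dg d m).1 hmD
    obtain ⟨hhom, hrep⟩ := hG m hmd
    have h1 := hrep (LamA w Φ k u) (by
      intro m m' h1 h2
      rw [LamA_monomial, LamA_monomial]
      exact val_congr w Φ k u m m' h1 h2)
    rw [LamA_monomial] at h1
    rw [h1]
    have h2 : B1 m * S + A m * (δ * Kc w * Mx) =
        ∑ o, (∑ m' ∈ (G m o).support, (‖(G m o).coeff m'‖ * (‖fac w ν β k u m' o‖ * S +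
          δ * Kc w * Mx))) := by
      simp only [B1, A]
      rw [Finset.sum_mul, Finset.sum_mul, ← Finset.sum_add_distrib]
      refine Finset.sum_congr rfl fun o _ => ?_
      rw [Finset.sum_mul, Finset.sum_mul, ← Finset.sum_add_distrib]
      refine Finset.sum_congr rfl fun m' _ => ?_
      ring
    rw [h2]
    refine (norm_sum_le _ _).trans (Finset.sum_le_sum fun o _ => ?_)
    rw [LamA_sum]
    refine (norm_sum_le _ _).trans (Finset.sum_le_sum fun m' hm' => ?_)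
    rw [norm_mul]
    refine mul_le_mul_of_nonneg_left ?_ (norm_nonneg _)
    have hdeg : m'.degree = d - 1 := by
      have h3 := hhom o (MvPolynomial.mem_support_iff.1 hm')
      rw [← h3, Finsupp.degree_eq_weight_one]
      rfl
    rw [LinF_split w a b o, mul_add, map_add]
    refine (norm_add_le _ _).trans (add_le_add ?_ ?_)
    · rw [LamA_rel w b J ν β k₀ Φ hR k u hu m' o, norm_mul]
      exact mul_le_mul_of_nonneg_left (hval_low m' hdeg) (norm_nonneg _)
    · rw [LamA_mul_lin]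
      refine (norm_sum_le _ _).trans ?_
      calc ∑ v, ‖cfA w (fun v => a v - b v) o v * val w Φ k u (m' + Finsupp.single v 1)‖
          ≤ ∑ v, ‖cfA w (fun v => a v - b v) o v‖ * Mx := by
            refine Finset.sum_le_sum fun v _ => ?_
            rw [norm_mul]
            refine mul_le_mul_of_nonneg_left (hval_high _ ?_) (norm_nonneg _)
            rw [map_add, Finsupp.degree_single, hdeg]
            omega
        _ = (∑ v, ‖cfA w (fun v => a v - b v) o v‖) * Mx := by rw [Finset.sum_mul]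
        _ ≤ δ * Kc w * Mx := by
            refine mul_le_mul_of_nonneg_right (sum_cfA_le w _ δ hδ0 ?_ o) hMx
            intro v
            rw [norm_sub_rev]
            exact hb v
  have hsum : Mx ≤ (∑ m ∈ Dg κ d, B1 m) * S + δ * Cc * Mx := by
    calc Mx ≤ ∑ m ∈ Dg κ d, (B1 m * S + A m * (δ * Kc w * Mx)) := Finset.sum_le_sum key
      _ = (∑ m ∈ Dg κ d, B1 m) * S + δ * Cc * Mx := by
        rw [Finset.sum_add_distrib, ← Finset.sum_mul, ← Finset.sum_mul]
        simp only [Cc]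
        ring
  have hδC : δ * Cc ≤ 1 / 2 := by
    rw [hδ, div_mul_eq_mul_div, div_le_div_iff₀ (by positivity) (by norm_num)]
    linarith
  have hfin : Mx ≤ 2 * (∑ m ∈ Dg κ d, B1 m) * S := by
    have : δ * Cc * Mx ≤ 1 / 2 * Mx := mul_le_mul_of_nonneg_right hδC hMx
    linarith
  intro m hm
  have h4 := hval_high m hm
  unfold val at h4
  rw [hm] at h4
  exact h4.trans hfin

end Pool.Agent.Mono.NP
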