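import Pool.Agent.Work.Monodromy.Interface13

/-!
# Phase 13, block FACE: a dual face is the set of minima of an integral linear form (helper46)
-/

set_option autoImplicit false

namespace Pool.Agent.Mono.NP

namespace FACEAux

variable {ι κ : Type} [Fintype ι] [DecidableEq ι] [Fintype κ] [DecidableEq κ]

/-- the vector `(w v, 1)` -/
def hatv (w : κ → ι → ℕ) (v : κ) : Option ι → ℤ
  | none => 1
  | some i => w v i

/-- the generators `hatv v`, `v ∈ κ`, and `- hatv v`, `v ∈ F` -/
def gens (w : κ → ι → ℕ) (F : Finset κ) : κ ⊕ F → Option ι → ℤ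
  | Sum.inl v => hatv w v
  | Sum.inr v => fun o => - hatv w v o

end FACEAux

open FACEAux in
/-- block FACE -/
theorem stmt_FACE (hMW : Stmt_MW) : Stmt_FACE := by
  classical
  intro ι κ _ _ _ _ w F hF hface
  obtain ⟨L, hL1, hL2⟩ := hMW (Option ι) (κ ⊕ F) (gens w F)
  have hpos : ∀ l ∈ L, ∀ v, 0 ≤ ∑ o, l o * hatv w v o := fun l hl v => hL1 l hl (Sum.inl v)
  have hzero : ∀ l ∈ L, ∀ v ∈ F, ∑ o, l o * hatv w v o = 0 := by
    intro l hl v hv
    have h1 := hL1 l hl (Sum.inr ⟨v, hv⟩)
    have h2 := hpos l hl v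
    simp only [gens, mul_neg, Finset.sum_neg_distrib] at h1
    omega
  have hex : ∀ v, v ∉ F → ∃ l ∈ L, 0 < ∑ o, l o * hatv w v o := by
    intro v hv
    by_contra hcon
    push Not at hcon
    obtain ⟨c, hc1, hc2⟩ := hL2 (fun o => -((hatv w v o : ℤ) : ℚ)) (by
      intro l hl
      have h1 : ((∑ o, l o * hatv w v o : ℤ) : ℚ) ≤ 0 := by exact_mod_cast hcon l hl
      push_cast at h1
      simp only [mul_neg, Finset.sum_neg_distrib]
      linarith)
    set m : κ → ℚ := fun u => (if u = v then 1 else 0) + c (Sum.inl u) -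
      (if h : u ∈ F then c (Sum.inr ⟨u, h⟩) else 0) with hm
    have hsum : ∀ g : κ → ℚ, ∑ u, m u * g u = g v + ∑ u, c (Sum.inl u) * g u -
        ∑ u : F, c (Sum.inr u) * g u := by
      intro g
      have h1 : ∑ u : F, c (Sum.inr u) * g u =
          ∑ u, (if h : u ∈ F then c (Sum.inr ⟨u, h⟩) else 0) * g u := by
        rw [← Finset.sum_subset (Finset.subset_univ F)
          (f := fun u => (if h : u ∈ F then c (Sum.inr ⟨u, h⟩) else 0) * g u)]
        · rw [← Finset.sum_coe_sort F]
          refine Finset.sum_congr rfl fun u _ => ?_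
          simp
        · intro u _ hu
          simp [hu]
      rw [h1]
      have h2 : g v = ∑ u, (if u = v then (1 : ℚ) else 0) * g u := by
        simp
      rw [h2, ← Finset.sum_add_distrib, ← Finset.sum_sub_distrib]
      refine Finset.sum_congr rfl fun u _ => ?_
      simp only [hm]
      ring
    have hc3 : ∀ o, - ((hatv w v o : ℤ) : ℚ) = ∑ u, c (Sum.inl u) * (hatv w u o : ℚ) -
        ∑ u : F, c (Sum.inr u) * (hatv w u o : ℚ) := by
      intro o
      rw [hc2 o, Fintype.sum_sum_type]
      simp only [gens]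
      push_cast
      simp only [mul_neg, Finset.sum_neg_distrib]
      ring
    have hfin := hface m (by
      have h1 := hsum (fun _ => 1)
      have h2 := hc3 none
      simp only [hatv, Int.cast_one, mul_one] at h2
      simp only [mul_one] at h1
      rw [h1]
      linarith) (by
      intro i
      have h1 := hsum (fun u => (w u i : ℚ))
      have h2 := hc3 (some i)
      simp only [hatv, Int.cast_natCast] at h2
      rw [h1]
      linarith) (by
      intro u hu
      simp only [hm, dif_neg hu, sub_zero]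
      have := hc1 (Sum.inl u)
      split_ifs <;> linarith) v hv
    simp only [hm, dif_neg hv, sub_zero, if_true] at hfin
    have := hc1 (Sum.inl v)
    linarith
  set l' : Option ι → ℤ := fun o => ∑ l ∈ L, l o with hl'
  have hl'sum : ∀ v, ∑ o, l' o * hatv w v o = ∑ l ∈ L, ∑ o, l o * hatv w v o := by
    intro v
    simp only [hl', Finset.sum_mul]
    exact Finset.sum_comm
  have hsplit : ∀ v, ∑ o, l' o * hatv w v o = l' none + ∑ i, l' (some i) * (w v i : ℤ) := by
    intro v
    rw [Fintype.sum_option]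
    simp [hatv]
  have h1 : ∀ v, 0 ≤ l' none + ∑ i, l' (some i) * (w v i : ℤ) := by
    intro v
    rw [← hsplit, hl'sum]
    exact Finset.sum_nonneg fun l hl => hpos l hl v
  have h2 : ∀ v ∈ F, l' none + ∑ i, l' (some i) * (w v i : ℤ) = 0 := by
    intro v hv
    rw [← hsplit, hl'sum]
    exact Finset.sum_eq_zero fun l hl => hzero l hl v hv
  have h3 : ∀ v, v ∉ F → 0 < l' none + ∑ i, l' (some i) * (w v i : ℤ) := by
    intro v hv
    rw [← hsplit, hl'sum]
    obtain ⟨l, hl, hlt⟩ := hex v hv
    exact Finset.sum_pos' (fun l hl => hpos l hl v) ⟨l, hl, hlt⟩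
  refine ⟨fun i => l' (some i), fun v => ⟨fun hv v' => ?_, fun hv => ?_⟩⟩
  · have ha := h2 v hv
    have hb := h1 v'
    linarith
  · by_contra hcon
    obtain ⟨v₀, hv₀⟩ := hF
    have ha := h2 v₀ hv₀
    have hb := h3 v hcon
    have hc := hv v₀
    linarith

end Pool.Agent.Mono.NP
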