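import Pool.Agent.Work.Monodromy.Interface13
import Pool.Agent.Work.Monodromy12.Final12

/-!
# Phase 13: nondegenerate polynomials, final form (helper17)
-/

set_option autoImplicit false

namespace Pool.Agent.Mono.NP

open MvPolynomial

namespace Final13Aux

variable {n : ℕ}

/-- the set of exponents of the initial form -/
theorem initForm_eq (f : MvPolynomial (Fin n) ℂ) (k : Fin n → ℤ) (F : Finset f.support)
    (hF : ∀ v, v ∈ F ↔ ∀ v' : f.support, ∑ i, k i * (((v : Fin n →₀ ℕ) i : ℕ) : ℤ) ≤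
      ∑ i, k i * (((v' : Fin n →₀ ℕ) i : ℕ) : ℤ)) :
    initForm f k = ∑ v ∈ F, monomial (v : Fin n →₀ ℕ) (f.coeff v) := by
  classical
  unfold initForm
  symm
  refine Finset.sum_bij (fun v _ => (v : Fin n →₀ ℕ)) ?_ ?_ ?_ ?_
  · intro v hv
    rw [Finset.mem_filter]
    exact ⟨v.2, fun m' hm' => (hF v).1 hv ⟨m', hm'⟩⟩
  · intro v _ v' _ h
    exact Subtype.ext h
  · intro m hm
    rw [Finset.mem_filter] at hm
    exact ⟨⟨m, hm.1⟩, (hF _).2 fun v' => hm.2 _ v'.2, rfl⟩
  · intro v _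
    rfl

theorem eval_monomial' (m : Fin n →₀ ℕ) (c : ℂ) (x : Fin n → ℂ) :
    eval x (monomial m c) = c * ∏ i, x i ^ m i := by
  rw [eval_monomial, Finsupp.prod_fintype _ _ fun i => pow_zero _]

theorem eval_sum_monomial {α : Type} (F : Finset α) (m : α → Fin n →₀ ℕ) (c : α → ℂ)
    (x : Fin n → ℂ) :
    eval x (∑ v ∈ F, monomial (m v) (c v)) = ∑ v ∈ F, c v * ∏ i, x i ^ m v i := by
  rw [map_sum]
  exact Finset.sum_congr rfl fun v _ => eval_monomial' _ _ _

theorem mul_eval_pderiv {α : Type} (F : Finset α) (m : α → Fin n →₀ ℕ) (c : α → ℂ)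
    (x : Fin n → ℂ) (i : Fin n) :
    x i * eval x (pderiv i (∑ v ∈ F, monomial (m v) (c v))) =
      ∑ v ∈ F, (m v i : ℂ) * (c v * ∏ i', x i' ^ m v i') := by
  have h1 : x i * eval x (pderiv i (∑ v ∈ F, monomial (m v) (c v))) =
      eval x (X i * pderiv i (∑ v ∈ F, monomial (m v) (c v))) := by
    rw [map_mul, eval_X]
  rw [h1, map_sum, Finset.mul_sum, map_sum]
  refine Finset.sum_congr rfl fun v _ => ?_
  rw [X_mul_pderiv_monomial, map_nsmul, eval_monomial', nsmul_eq_mul]

/-- the classical definition of nondegenerate polynomials -/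
theorem ndP_of (hFACE : Stmt_FACE) (f : MvPolynomial (Fin n) ℂ) (hN : IsNondegenerate f) :
    NdP (fun (m : f.support) i => (m : Fin n →₀ ℕ) i) (fun m : f.support => f.coeff m) := by
  classical
  intro F hF hface x hx h0
  obtain ⟨k, hk⟩ := hFACE (Fin n) f.support _ F hF hface
  have h1 := initForm_eq f k F hk
  obtain ⟨i, hi⟩ := hN k x hx (by rw [h1, eval_sum_monomial]; exact h0)
  refine ⟨i, ?_⟩
  rw [h1] at hi
  intro h2
  apply hi
  have h3 := mul_eval_pderiv F (fun v : f.support => (v : Fin n →₀ ℕ)) (fun v => f.coeff v) x i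
  rw [h2] at h3
  exact (mul_eq_zero.1 h3).resolve_left (hx i)

end Final13Aux

open FinalAux Final13Aux

/-- the monodromy conjecture for nondegenerate polynomials -/
theorem good13 (hI : Stmt_I13) (hIII : Stmt_III13) (hFACE : Stmt_FACE) (E : EulerMeasure) {n : ℕ}
    (f : MvPolynomial (Fin n) ℂ) (hf : f.totalDegree ≠ 0) (hN : IsNondegenerate f) (e : ℕ)
    (he : 1 ≤ e) (R : RatFunc ℚ) (hR : IsTwTopZeta E.toHodgeMeasure f e R) : GoodPoles f R := by
  classical
  have hf0 : f ≠ 0 := by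
    rintro rfl
    exact hf (totalDegree_zero)
  obtain ⟨m₀, hm₀⟩ := MvPolynomial.support_nonempty.2 hf0
  have : Nonempty f.support := ⟨⟨m₀, hm₀⟩⟩
  set w : f.support → Fin n → ℕ := fun m i => (m : Fin n →₀ ℕ) i with hw
  set a : f.support → ℂ := fun m => f.coeff m with hadef
  have hinj : Function.Injective w := by
    intro m m' h
    apply Subtype.ext
    ext i
    exact congrFun h i
  have hpoly : poly w a = f := by
    conv_rhs => rw [f.as_sum, ← Finset.sum_coe_sort f.support]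
    unfold poly
    refine Finset.sum_congr rfl fun m _ => ?_
    rw [monomial_eq, Finsupp.prod_fintype _ _ (fun i => pow_zero _)]
  have hNd : NdP w a := ndP_of hFACE f hN
  obtain ⟨h, hh, hfull⟩ := stmt_FULL (Fin n) f.support w hinj
  obtain ⟨P, D, hTP, hD, hpole⟩ := part_II (Fin n) f.support w h e hinj hh he
  obtain ⟨c, hc⟩ := hI E (Fin n) f.support w a h e R P D hinj hNd hh hfull he
    (by rw [hpoly]; exact hR) hTP
  intro s hs
  by_cases hz : ∃ z : ℤ, s = z
  · obtain ⟨z, rfl⟩ := hz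
    exact eig_z f hf z
  push Not at hz
  have htot : ((e.totient : ℚ)) ≠ 0 := by exact_mod_cast (Nat.totient_pos.2 he).ne'
  have h1 : Polynomial.aeval s (RatFunc.C (e.totient : ℚ) * R + RatFunc.C c).denom = 0 :=
    SSAux.pole_add_C (SSAux.pole_C_mul htot hs)
  have h2 : RatFunc.C (e.totient : ℚ) * R + RatFunc.C c =
      pref e * (aeval (line (Fin n)) P / aeval (line (Fin n)) D) := by
    rw [← mul_div_assoc, ← hc, mul_div_assoc, div_self hD, mul_one]
  rw [h2] at h1
  rcases pole_mul h1 with h3 | h3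
  · exact absurd (by rw [pole_pref h3]; push_cast; rfl) (hz (-1))
  · obtain ⟨s₀, hs₀, hL⟩ := hpole s hz h3
    have hs₀z : ∀ z : ℤ, s₀ ≠ z := by
      intro z hz'
      apply hz z
      rw [← hs₀, hz']
      simp
    obtain ⟨β, z, hβ, hW⟩ := hIII (Fin n) f.support w a h s₀ hNd hh hs₀z hL
    rw [hpoly] at hW
    rw [← hs₀]
    exact eig_wit f s₀ β z hs₀z hβ hW

theorem good13_top (hI : Stmt_I13) (hIII : Stmt_III13) (hFACE : Stmt_FACE) (E : EulerMeasure)
    {n : ℕ} (f : MvPolynomial (Fin n) ℂ) (hf : f.totalDegree ≠ 0) (hN : IsNondegenerate f)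
    (R : RatFunc ℚ) (hR : IsTopologicalZeta E.toHodgeMeasure f R) : GoodPoles f R := by
  obtain ⟨q, hq⟩ := isLim_zetaSer1 E.toHodgeMeasure f 1 R ((isTopologicalZeta_iff _ f R).1 hR)
  have h1 : IsTwTopZeta E.toHodgeMeasure f 1 (R + RatFunc.C q) := by
    refine ⟨fun _ => R + RatFunc.C q, fun d hd => ?_, ?_⟩
    · rw [Nat.divisors_one, Finset.mem_singleton] at hd
      rw [hd]
      exact hq
    · simp
  intro s hs
  exact good13 hI hIII hFACE E f hf hN 1 le_rfl _ h1 s (SSAux.pole_add_C hs)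

end Pool.Agent.Mono.NP
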