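import Pool.Agent.Work.Monodromy.Interface13
import Pool.Agent.Work.Monodromy12.PartIII12

/-!
# Phase 13, block GNR: the functional for generic coefficients (helper28, from IIIASM12 of helper14)
-/

set_option autoImplicit false

namespace Pool.Agent.Mono.NP

open MvPolynomial

theorem stmt_GNR : Stmt_GNR := by
  intro ι κ _ _ _ _ w h s₀ hh hs hL
  have hG : Stmt_G := stmt_G
  have hSUPP : Stmt_SUPP := stmt_SUPP
  have hNZ : Stmt_NZ := stmt_NZ stmt_SP
  have hEMB : Stmt_EMB := stmt_EMB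
  have hPHI : Stmt_PHI := stmt_PHI stmt_LR (stmt_FIN stmt_TRI1 stmt_SUPP)
  rw [lamDatum_iff] at hL
  obtain ⟨c, J, d, lam, hD⟩ := hL
  obtain ⟨G, hG⟩ := hG
  obtain ⟨Φ, hΦ1, hΦ2, hΦ3, hΦ4⟩ := hPHI G hG ι κ w h s₀ c J d lam hh hD
  obtain ⟨hc, hci, -⟩ := id hD
  let ν : ι → ℚ := fun j => if j ∈ J then ∑ v, c v * w v j else 0
  have hν0 : ∀ j, j ∉ J → ν j = 0 := fun j hj => if_neg hj
  have hνJ : ∀ j, j ∈ J → ν j = ∑ v, c v * w v j := fun j hj => if_pos hj
  refine ⟨J, ν, ⌊s₀⌋, hν0, fun a ha => ?_⟩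
  obtain ⟨f, hf⟩ := hEMB κ h a hh ha
  have hfC : ∀ q : ℚ, f (HahnSeries.C q) = (q : ℂ) := fun q => eq_ratCast (f.comp HahnSeries.C) q
  let Φ' : ℤ → (ι → ℤ) → ℂ := fun k u => f (Φ (s₀ - k) fun j => (u j : ℚ) + 1 + ν j)
  refine ⟨Φ', ⟨?_, ?_, ?_⟩, ?_⟩
  · -- the first relation
    intro k u i hu
    have h1 := hΦ3 (s₀ - k) (fun j => ((u j - if j = i then 1 else 0 : ℤ) : ℚ) + 1 + ν j) i
      (fun j hj hji => by
        rw [if_neg hji, hν0 j hj]
        have : (0 : ℚ) ≤ u j := by exact_mod_cast hu j hj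
        push_cast
        linarith)
    have h2 := congrArg f h1
    rw [map_sum, map_mul, hfC] at h2
    have h3 : ∀ v, f (HahnSeries.C (w v i : ℚ) * (HahnSeries.single (h v) 1 *
        Φ (s₀ - k - 1) (fun j => (((u j - if j = i then 1 else 0 : ℤ) : ℚ) + 1 + ν j) + w v j))) =
        (w v i : ℂ) * (a v * Φ' (k + 1) (fun j => u j + w v j - if j = i then 1 else 0)) := by
      intro v
      rw [map_mul, map_mul, hfC, hf]
      have h4 : (s₀ - k - 1 : ℚ) = s₀ - ((k + 1 : ℤ) : ℚ) := by push_cast; ring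
      have h5 : (fun j => (((u j - if j = i then 1 else 0 : ℤ) : ℚ) + 1 + ν j) + (w v j : ℚ)) =
          fun j => ((u j + w v j - if j = i then 1 else 0 : ℤ) : ℚ) + 1 + ν j := by
        funext j
        push_cast
        ring
      rw [h4, h5, Rat.cast_natCast]
    rw [Finset.sum_congr rfl fun v _ => h3 v] at h2
    rw [h2]
    have h6 : ((-(((u i - if i = i then 1 else 0 : ℤ) : ℚ) + 1 + ν i) : ℚ) : ℂ) =
        -((u i : ℂ) + (ν i : ℂ)) := by
      rw [if_pos rfl]
      push_cast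
      ring
    rw [h6]
  · -- the second relation
    intro k u hu
    have h1 := hΦ4 (s₀ - k) (fun j => (u j : ℚ) + 1 + ν j)
      (fun j hj => by
        rw [hν0 j hj]
        have : (0 : ℚ) ≤ u j := by exact_mod_cast hu j hj
        linarith)
    have h2 := congrArg f h1
    rw [map_sum, map_mul, hfC] at h2
    have h3 : ∀ v, f (HahnSeries.single (h v) 1 *
        Φ (s₀ - k - 1) (fun j => ((u j : ℚ) + 1 + ν j) + w v j)) =
        a v * Φ' (k + 1) (fun j => u j + w v j) := by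
      intro v
      rw [map_mul, hf]
      have h4 : (s₀ - k - 1 : ℚ) = s₀ - ((k + 1 : ℤ) : ℚ) := by push_cast; ring
      have h5 : (fun j => ((u j : ℚ) + 1 + ν j) + (w v j : ℚ)) =
          fun j => ((u j + w v j : ℤ) : ℚ) + 1 + ν j := by
        funext j
        push_cast
        ring
      rw [h4, h5]
    rw [Finset.sum_congr rfl fun v _ => h3 v] at h2
    rw [h2]
    push_cast
    rfl
  · -- bounded
    intro k hk u hu
    by_contra hne
    have h1 : Φ (s₀ - k) (fun j => (u j : ℚ) + 1 + ν j) ≠ 0 := fun h0 => hne (by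
      show f (Φ (s₀ - k) fun j => (u j : ℚ) + 1 + ν j) = 0
      rw [h0, map_zero])
    obtain ⟨n, ⟨hn1, hn2, hn3⟩, hn⟩ := hΦ2 _ _ h1
    have h2 := (hSUPP G hG ι κ w h s₀ c J d lam hD n hn1 hn).2 (fun i hi => by
      rw [hn2]
      show -((u i : ℚ) + 1 + ν i) ≤ 0
      rw [hν0 i hi]
      have : (0 : ℚ) ≤ u i := by exact_mod_cast hu i hi
      linarith)
    rw [hn3] at h2
    have h3 : (k : ℚ) < s₀ := lt_of_lt_of_le (by exact_mod_cast hk) (Int.floor_le s₀)
    linarith
  · -- not zero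
    obtain ⟨n, hn1, hn2, hn⟩ := hNZ G hG ι κ w h s₀ c J d lam hD
    have h1 : ∃ k : ℤ, (k : ℚ) = s₀ - ∑ v, n v := by
      choose z hz using hn1
      refine ⟨-∑ v, z v, ?_⟩
      push_cast
      rw [Finset.sum_congr rfl fun v _ => (hz v).symm, Finset.sum_add_distrib, hc]
      ring
    have h2 : ∀ i, ∃ x : ℤ, (x : ℚ) = -(∑ v, n v * w v i) - 1 - ν i := by
      intro i
      choose z hz using hn1
      have h3 : ∑ v, n v * (w v i : ℚ) = (∑ v, ((z v * w v i : ℤ) : ℚ)) - ∑ v, c v * w v i := by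
        rw [← Finset.sum_sub_distrib]
        refine Finset.sum_congr rfl fun v _ => ?_
        push_cast
        rw [← hz]
        ring
      by_cases hi : i ∈ J
      · refine ⟨-(∑ v, z v * w v i) - 1, ?_⟩
        rw [hνJ i hi, h3]
        push_cast
        ring
      · obtain ⟨y, hy⟩ := hci i hi
        refine ⟨-(∑ v, z v * w v i) + y - 1, ?_⟩
        rw [hν0 i hi, h3, hy]
        push_cast
        ring
    obtain ⟨k, hk⟩ := h1
    choose u hu using h2
    refine ⟨k, u, fun j hj => ?_, ?_⟩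
    · have h3 := hn2 j hj
      have h4 := hu j
      rw [hν0 j hj] at h4
      have h5 : (0 : ℚ) ≤ (u j : ℚ) := by rw [h4]; linarith
      exact_mod_cast h5
    · have h3 : n ∈ NS w c (s₀ - k) (fun j => (u j : ℚ) + 1 + ν j) := by
        refine ⟨hn1, fun i => ?_, ?_⟩
        · show ∑ v, n v * (w v i : ℚ) = -((u i : ℚ) + 1 + ν i)
          rw [hu i]
          ring
        · rw [hk]
          ring
      have h4 := hΦ1 _ _ n h3
      show f (Φ (s₀ - k) fun j => (u j : ℚ) + 1 + ν j) ≠ 0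
      intro h5
      have h6 : Φ (s₀ - k) (fun j => (u j : ℚ) + 1 + ν j) = 0 :=
        (map_eq_zero f).1 h5
      rw [h6, HahnSeries.coeff_zero] at h4
      exact hn h4.symm

end Pool.Agent.Mono.NP
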