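import Pool.Agent.Work.Monodromy.Interface13

/-!
# Phase 13, block GOR: Gordan (helper67)
-/

set_option autoImplicit false

namespace Pool.Agent.Mono.NP

namespace GORAux

variable {τ κ : Type} [Fintype τ] [Fintype κ]

/-- Dickson: finitely many points of the polyhedron such that every point dominates one -/
theorem dickson (L : Finset (τ → ℤ)) (c : (τ → ℤ) → ℤ) :
    ∃ R₀ : Finset (τ → ℤ), (∀ r ∈ R₀, ∀ l ∈ L, c l ≤ ∑ t, l t * r t) ∧
      ∀ y : τ → ℤ, (∀ l ∈ L, c l ≤ ∑ t, l t * y t) →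
        ∃ r ∈ R₀, ∀ l ∈ L, ∑ t, l t * r t ≤ ∑ t, l t * y t := by
  classical
  set R : Set (τ → ℤ) := {y | ∀ l ∈ L, c l ≤ ∑ t, l t * y t} with hR
  set φ : (τ → ℤ) → (L → ℕ) := fun y l => (∑ t, l.1 t * y t - c l.1).toNat with hφ
  set S : Set (L → ℕ) := {s | Minimal (fun s => s ∈ φ '' R) s} with hS
  have hfin : S.Finite := by
    have h1 : IsAntichain (· ≤ ·) S := setOfPred_minimal_antichain _
    exact h1.finite_of_partiallyWellOrderedOn (Set.isPWO_of_wellQuasiOrderedLE S)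
  have hch : ∀ s ∈ S, ∃ y ∈ R, φ y = s := fun s hs => hs.prop
  choose! g hg1 hg2 using hch
  refine ⟨hfin.toFinset.image g, ?_, ?_⟩
  · intro r hr
    rw [Finset.mem_image] at hr
    obtain ⟨s, hs, rfl⟩ := hr
    exact hg1 s (hfin.mem_toFinset.1 hs)
  · intro y hy
    obtain ⟨s, hs1, hs2⟩ := exists_minimal_le_of_wellFoundedLT (fun s => s ∈ φ '' R) (φ y)
      ⟨y, hy, rfl⟩
    have hsS : s ∈ S := hs2
    refine ⟨g s, Finset.mem_image_of_mem g (hfin.mem_toFinset.2 hsS), ?_⟩
    intro l hl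
    have h1 := hs1 ⟨l, hl⟩
    rw [← hg2 s hsS] at h1
    have h2 := hg1 s hsS l hl
    have h3 := hy l hl
    rw [hφ] at h1
    simp only at h1
    omega

end GORAux

open GORAux

theorem stmt_GOR : Stmt_GOR := by
  classical
  intro τ κ _ _ W L c hW hcone
  obtain ⟨R₀, hR₀, hR₀'⟩ := dickson L c
  set N : τ → ℤ := fun t => ∑ v, |W v t| with hN
  set P : Finset (τ → ℤ) := Fintype.piFinset (fun t => Finset.Icc (-N t) (N t)) with hP
  refine ⟨((R₀ ×ˢ P).image (fun q => q.1 + q.2)).filter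
    (fun r => ∀ l ∈ L, c l ≤ ∑ t, l t * r t), ?_, ?_⟩
  · intro r hr
    exact (Finset.mem_filter.1 hr).2
  · intro y hy
    obtain ⟨y₀, hy₀, hle⟩ := hR₀' y hy
    have h1 : ∀ l ∈ L, 0 ≤ ∑ t, (l t : ℚ) * (((y t - y₀ t : ℤ)) : ℚ) := by
      intro l hl
      have h2 : (∑ t, (l t : ℚ) * (((y t - y₀ t : ℤ)) : ℚ)) =
          ((∑ t, l t * y t - ∑ t, l t * y₀ t : ℤ) : ℚ) := by
        push_cast
        rw [← Finset.sum_sub_distrib]
        refine Finset.sum_congr rfl fun t _ => ?_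
        ring
      rw [h2]
      exact_mod_cast sub_nonneg.2 (hle l hl)
    obtain ⟨cc, hcc0, hcc⟩ := hcone (fun t => (((y t - y₀ t : ℤ)) : ℚ)) h1
    set m : κ → ℕ := fun v => ⌊cc v⌋₊ with hm
    set p : τ → ℤ := fun t => y t - y₀ t - ∑ v, (m v : ℤ) * W v t with hp
    have hfr : ∀ v, 0 ≤ cc v - m v ∧ cc v - m v < 1 := by
      intro v
      refine ⟨sub_nonneg.2 (Nat.floor_le (hcc0 v)), ?_⟩
      have := Nat.lt_floor_add_one (cc v)
      rw [sub_lt_iff_lt_add']
      exact this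
    have hpq : ∀ t, ((p t : ℤ) : ℚ) = ∑ v, (cc v - m v) * W v t := by
      intro t
      have h2 := hcc t
      rw [hp]
      push_cast
      push_cast at h2
      rw [h2, ← Finset.sum_sub_distrib]
      refine Finset.sum_congr rfl fun v _ => ?_
      ring
    have hpP : p ∈ P := by
      rw [hP, Fintype.mem_piFinset]
      intro t
      rw [Finset.mem_Icc, ← abs_le]
      have h2 : |((p t : ℤ) : ℚ)| ≤ ((N t : ℤ) : ℚ) := by
        rw [hpq, hN]
        push_cast
        refine (Finset.abs_sum_le_sum_abs _ _).trans ?_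
        refine Finset.sum_le_sum fun v _ => ?_
        rw [abs_mul]
        have h3 : |cc v - m v| ≤ 1 := by
          rw [abs_of_nonneg (hfr v).1]
          exact (hfr v).2.le
        calc |cc v - m v| * |(W v t : ℚ)| ≤ 1 * |(W v t : ℚ)| :=
              mul_le_mul_of_nonneg_right h3 (abs_nonneg _)
          _ = |(W v t : ℚ)| := one_mul _
      exact_mod_cast h2
    have hlp : ∀ l ∈ L, 0 ≤ ∑ t, l t * p t := by
      intro l hl
      have h2 : ((∑ t, l t * p t : ℤ) : ℚ) = ∑ v, (cc v - m v) * ((∑ t, l t * W v t : ℤ) : ℚ) := by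
        push_cast
        simp only [hpq, Finset.mul_sum]
        rw [Finset.sum_comm]
        refine Finset.sum_congr rfl fun v _ => Finset.sum_congr rfl fun t _ => ?_
        ring
      have h3 : (0 : ℚ) ≤ ((∑ t, l t * p t : ℤ) : ℚ) := by
        rw [h2]
        refine Finset.sum_nonneg fun v _ => mul_nonneg (hfr v).1 ?_
        exact_mod_cast hW l hl v
      exact_mod_cast h3
    refine ⟨y₀ + p, ?_, m, ?_⟩
    · rw [Finset.mem_filter, Finset.mem_image]
      refine ⟨⟨(y₀, p), Finset.mem_product.2 ⟨hy₀, hpP⟩, rfl⟩, ?_⟩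
      intro l hl
      have h4 : ∑ t, l t * (y₀ + p) t = ∑ t, l t * y₀ t + ∑ t, l t * p t := by
        rw [← Finset.sum_add_distrib]
        refine Finset.sum_congr rfl fun t _ => ?_
        rw [Pi.add_apply]
        ring
      rw [h4]
      have := hR₀ y₀ hy₀ l hl
      have := hlp l hl
      omega
    · intro t
      rw [Pi.add_apply, hp]
      ring

end Pool.Agent.Mono.NP
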