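import Pool.Agent.Work.Monodromy.Interface13

/-!
# Phase 13, block III13: assembly of part III (helper67)
-/

set_option autoImplicit false

namespace Pool.Agent.Mono.NP

theorem stmt_III13 (hGNR : Stmt_GNR) (hSPEC : Stmt_SPEC) (hWITA : Stmt_WITA) : Stmt_III13 := by
  intro ι κ _ _ _ _ w a h s₀ ha hh hs₀ hlam
  obtain ⟨J, ν, k₀, hν, hgen⟩ := hGNR ι κ w h s₀ hh hs₀ hlam
  obtain ⟨Φ, hR, hN⟩ := hSPEC ι κ w a J ν s₀ k₀ ha hν hgen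
  obtain ⟨z, hz⟩ := hWITA ι κ w a J ν s₀ Φ hν hR.1 hR.2.1 ⟨k₀, hR.2.2⟩ hN
  exact ⟨s₀ + z, z, rfl, hz⟩

end Pool.Agent.Mono.NP
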