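import Pool.Agent.Work.Monodromy.Interface13
import Pool.Agent.Work.Monodromy12.KW12

/-!
# Phase 13, part I, block KW13: the class of the cover of the complement, nondegenerate
coefficients (helper99)
-/

set_option autoImplicit false

namespace Pool.Agent.Mono.NP

open MvPolynomial Filter Topology

namespace KW13Aux

section

variable {ι κ : Type} [Fintype ι] [DecidableEq ι] [Fintype κ] [DecidableEq κ]

set_option linter.unusedSectionVars false

/-- sums over the vectors of the pyramid -/
theorem sum_pyr_inl (w : κ → ι → ℕ) (d : ℕ) (m : κ ⊕ Unit → ℚ) (i : ι) :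
    ∑ v, m v * (pyr w d v (Sum.inl i) : ℚ) = ∑ a, m (Sum.inl a) * (w a i : ℚ) := by
  rw [Fintype.sum_sum_type]
  simp [pyr]

theorem sum_pyr_inr (w : κ → ι → ℕ) (d : ℕ) (m : κ ⊕ Unit → ℚ) :
    ∑ v, m v * (pyr w d v (Sum.inr ()) : ℚ) = m (Sum.inr ()) * (d : ℚ) := by
  rw [Fintype.sum_sum_type]
  simp [pyr]

/-- the pyramid over a face is a face -/
theorem face_pyr (w : κ → ι → ℕ) (d : ℕ) (hd : 1 ≤ d) (F : Finset κ) (hF : Fce w F) :
    Fce (pyr w d) (F.map Function.Embedding.inl ∪ {Sum.inr ()}) := by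
  intro m h1 h2 h3 v hv
  have h4 := h2 (Sum.inr ())
  rw [sum_pyr_inr] at h4
  have hd0 : (d : ℚ) ≠ 0 := by
    have : d ≠ 0 := by omega
    exact_mod_cast this
  have h5 : m (Sum.inr ()) = 0 := by
    rcases mul_eq_zero.1 h4 with h | h
    · exact h
    · exact absurd h hd0
  rcases v with v | ⟨⟩
  · refine hF (fun a => m (Sum.inl a)) ?_ ?_ ?_ v ?_
    · rw [Fintype.sum_sum_type] at h1
      simp only [Finset.univ_unique, Finset.sum_singleton, PUnit.default_eq_unit, h5,
        add_zero] at h1
      exact h1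
    · intro i
      have h6 := h2 (Sum.inl i)
      rw [sum_pyr_inl] at h6
      exact h6
    · intro a ha
      apply h3
      intro hc
      rcases Finset.mem_union.1 hc with h | h
      · exact ha ((Finset.mem_map' _).1 h)
      · exact absurd (Finset.mem_singleton.1 h) (by simp)
    · intro hc
      exact hv (Finset.mem_union_left _ ((Finset.mem_map' _).2 hc))
  · exact h5

/-- the pyramid is nondegenerate -/
theorem nd_pyr (w : κ → ι → ℕ) (a : κ → ℂ) (d : ℕ) (hd : 1 ≤ d) (hNd : NdP w a) :
    NdP (pyr w d) (Sum.elim a fun _ : Unit => (-1 : ℂ)) := by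
  classical
  intro G hGne hG x hx hsum
  by_cases hap : Sum.inr () ∈ G
  · refine ⟨Sum.inr (), ?_⟩
    have h1 : ∀ v ∈ G, v ≠ Sum.inr () → (pyr w d v (Sum.inr ()) : ℂ) *
        ((Sum.elim a fun _ : Unit => (-1 : ℂ)) v * ∏ i', x i' ^ pyr w d v i') = 0 := by
      intro v _ hv
      rcases v with v | ⟨⟩
      · simp [pyr]
      · exact absurd rfl hv
    rw [Finset.sum_eq_single_of_mem _ hap h1]
    have h2 : ∏ i', x i' ^ pyr w d (Sum.inr ()) i' = x (Sum.inr ()) ^ d := by
      rw [Fintype.prod_sum_type]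
      simp [pyr]
    rw [h2]
    have hd0 : (d : ℂ) ≠ 0 := by
      have : d ≠ 0 := by omega
      exact_mod_cast this
    simp only [pyr, Sum.elim_inr]
    exact mul_ne_zero hd0 (mul_ne_zero (neg_ne_zero.2 one_ne_zero) (pow_ne_zero _ (hx _)))
  · have hGG : G = G.toLeft.map Function.Embedding.inl := by
      ext v
      rcases v with v | ⟨⟩
      · rw [Finset.mem_map]
        constructor
        · intro h
          exact ⟨v, Finset.mem_toLeft.2 h, rfl⟩
        · rintro ⟨v', hv', h⟩
          rw [← h]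
          exact Finset.mem_toLeft.1 hv'
      · constructor
        · intro h
          exact absurd h hap
        · intro h
          obtain ⟨v', _, h'⟩ := Finset.mem_map.1 h
          exact absurd h' (by simp)
    have hface : Fce w G.toLeft := by
      intro m h1 h2 h3 v hv
      refine hG (Sum.elim m fun _ => 0) ?_ ?_ ?_ (Sum.inl v) ?_
      · rw [Fintype.sum_sum_type]
        simp only [Sum.elim_inl, Sum.elim_inr, Finset.sum_const_zero, add_zero]
        exact h1
      · rintro (i | ⟨⟩)
        · rw [sum_pyr_inl]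
          exact h2 i
        · rw [sum_pyr_inr]
          simp
      · rintro (b | ⟨⟩) hb
        · apply h3
          intro hc
          exact hb (Finset.mem_toLeft.1 hc)
        · exact le_rfl
      · intro hc
        exact hv (Finset.mem_toLeft.2 hc)
    have hne : G.toLeft.Nonempty := by
      rw [hGG] at hGne
      exact Finset.map_nonempty.1 hGne
    have hprod : ∀ v : κ, ∏ i', x i' ^ pyr w d (Sum.inl v) i' =
        ∏ i, x (Sum.inl i) ^ w v i := by
      intro v
      rw [Fintype.prod_sum_type]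
      simp [pyr]
    obtain ⟨i, hi⟩ := hNd G.toLeft hne hface (fun i => x (Sum.inl i)) (fun i => hx _) (by
      rw [hGG, Finset.sum_map] at hsum
      rw [← hsum]
      apply Finset.sum_congr rfl
      intro v _
      show a v * ∏ i, x (Sum.inl i) ^ w v i = a v * ∏ i', x i' ^ pyr w d (Sum.inl v) i'
      rw [hprod])
    refine ⟨Sum.inl i, ?_⟩
    intro hc
    apply hi
    rw [hGG, Finset.sum_map] at hc
    rw [← hc]
    apply Finset.sum_congr rfl
    intro v _
    show (w v i : ℂ) * (a v * ∏ i, x (Sum.inl i) ^ w v i) =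
      (w v i : ℂ) * (a v * ∏ i', x i' ^ pyr w d (Sum.inl v) i')
    rw [hprod]

end

end KW13Aux

/-- block KW13 -/
theorem stmt_KW13 (hKF : Stmt_KF13) (hPYRC : Stmt_PYRC) : Stmt_KW13 := by
  classical
  intro E ι κ _ _ _ _ w a h F d hF hFce hd hw hNd hh
  obtain ⟨h₀, hh₀⟩ := KWAux.exists_height h hh
  -- the pyramid
  have hinj : Function.Injective (pyr w d) := by
    rintro (v | ⟨⟩) (v' | ⟨⟩) hv
    · have h1 : w v = w v' := by
        funext i
        exact congrFun hv (Sum.inl i)
      rw [hw h1]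
    · have h1 := congrFun hv (Sum.inr ())
      simp only [pyr, Sum.elim_inl, Sum.elim_inr] at h1
      omega
    · have h1 := congrFun hv (Sum.inr ())
      simp only [pyr, Sum.elim_inl, Sum.elim_inr] at h1
      omega
    · rfl
  obtain ⟨hrk, hsum⟩ := hPYRC ι κ w h h₀ F d hF hd hh₀
  obtain ⟨q, hq1, -, hq3⟩ := hKF E (ι ⊕ Unit) (κ ⊕ Unit) (pyr w d)
    (Sum.elim a fun _ : Unit => (-1 : ℂ))
    (Sum.elim h fun _ : Unit => h₀) (F.map Function.Embedding.inl ∪ {Sum.inr ()})
    ⟨Sum.inr (), Finset.mem_union_right _ (Finset.mem_singleton_self _)⟩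
    (KW13Aux.face_pyr w d hd F hFce) hinj (KW13Aux.nd_pyr w a d hd hNd) hh₀
  have hmap : WF w a d F = VF (pyr w d) (Sum.elim a fun _ : Unit => (-1 : ℂ))
      (F.map Function.Embedding.inl ∪ {Sum.inr ()}) := by
    ext z
    constructor
    · rintro ⟨hz1, hz2, hz3⟩
      refine ⟨?_, ?_⟩
      · rintro (i | ⟨⟩)
        · exact hz1 i
        · exact hz2
      · rw [KWAux.sum_pyr, ← hz3]
        ring
    · rintro ⟨hx1, hx2⟩
      rw [KWAux.sum_pyr] at hx2
      refine ⟨fun i => hx1 _, hx1 _, ?_⟩
      linear_combination -hx2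
  have hpos := KWAux.rk_pos w F hF
  refine ⟨q, ?_, ?_⟩
  · rw [hmap, hq1, hrk]
    congr 2
    rw [Fintype.card_sum, Fintype.card_unit]
    omega
  · rw [hq3 (by omega), hrk, hsum]

end Pool.Agent.Mono.NP
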