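import Pool.Agent.Work.Monodromy.Interface13
import Pool.Agent.Work.Monodromy12.LIMA12

/-!
# Phase 13, block LIMA13: the values of the zeta function as limits, nondegenerate coefficients
(helper28, from LIMA12 of helper2)
-/

set_option autoImplicit false

namespace Pool.Agent.Mono.NP

open MvPolynomial Filter Topology

namespace LIMA13Aux

variable {ι κ : Type} [Fintype ι] [DecidableEq ι] [Fintype κ] [DecidableEq κ]

theorem fce_fc [Nonempty κ] (w : κ → ι → ℕ) (k : ι → ℕ) : Fce w (fc w k) := by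
  intro m h0 h1 h2
  have hle : ∀ b, mnk w k ≤ kw w k b := fun b => ciInf_le (OrderBot.bddBelow _) b
  have hsum : ∑ v, m v * ((kw w k v : ℚ) - (mnk w k : ℚ)) = 0 := by
    have h3 : ∀ v, m v * ((kw w k v : ℚ) - (mnk w k : ℚ)) =
        ∑ i, (k i : ℚ) * (m v * (w v i : ℚ)) - (mnk w k : ℚ) * m v := by
      intro v
      rw [kw]
      push_cast
      rw [mul_sub, Finset.mul_sum]
      congr 1
      · exact Finset.sum_congr rfl fun i _ => by ring
      · ring
    rw [Finset.sum_congr rfl fun v _ => h3 v, Finset.sum_sub_distrib, ← Finset.mul_sum, h0,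
      mul_zero, sub_zero, Finset.sum_comm]
    refine Finset.sum_eq_zero fun i _ => ?_
    rw [← Finset.mul_sum, h1 i, mul_zero]
  have hterm : ∀ v ∈ (Finset.univ : Finset κ), 0 ≤ m v * ((kw w k v : ℚ) - (mnk w k : ℚ)) := by
    intro v _
    have h4 : (0 : ℚ) ≤ (kw w k v : ℚ) - (mnk w k : ℚ) := by
      have : (mnk w k : ℚ) ≤ (kw w k v : ℚ) := by exact_mod_cast hle v
      linarith
    by_cases hv : v ∈ fc w k
    · rw [(LIMAAux.mem_fc w k v).1 hv, sub_self, mul_zero]
    · exact mul_nonneg (h2 v hv) h4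
  intro v hv
  have h5 := (Finset.sum_eq_zero_iff_of_nonneg hterm).1 hsum v (Finset.mem_univ v)
  rcases mul_eq_zero.1 h5 with h6 | h6
  · exact h6
  · exfalso
    apply hv
    rw [LIMAAux.mem_fc]
    have : (kw w k v : ℚ) = (mnk w k : ℚ) := by linarith
    exact_mod_cast this

theorem nd_of_ndP [Nonempty κ] (w : κ → ι → ℕ) (a : κ → ℂ) (h : NdP w a) : Nd w a :=
  fun F hF hk x hx h0 => by
    obtain ⟨k, rfl⟩ := hk
    exact h (fc w k) hF (fce_fc w k) x hx h0

open LIMAAux

/-- the limit of the sum over the faces -/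
theorem faces_lim [Nonempty κ] (hKF : Stmt_KF13) (hKW : Stmt_KW13)
    (hSMPF : Stmt_SMPF) (hGRK : Stmt_GRK) (hCELI : Stmt_CELI) (E : EulerMeasure) (w : κ → ι → ℕ)
    (a : κ → ℂ) (h : κ → ℝ) (e : ℕ) (hinj : Function.Injective w) (ha : NdP w a)
    (hh : LinearIndependent ℚ h) (hfull : Full w h) (he : 1 ≤ e) (s : ℕ) (J : Finset κ → ℝ)
    (hJ : ∀ C ∈ cls0 w h, Tendsto (fun ε : ℝ => ε ^ (Fintype.card ι + 1 - C.card) *
        Fs w C (pz (fun _ => 0) s 0) ε) (𝓝[>] 0) (𝓝 (J C))) :
    Tendsto (fun ε : ℝ => ∑ F : Finset κ, SF w s F ε * ∑ d ∈ e.divisors,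
      ((ArithmeticFunction.moebius (e / d) : ℤ) : ℝ) *
        (Polynomial.aeval (Real.exp ε) (E.val (WF w a d F)) +
          Polynomial.aeval (Real.exp ε) (E.val (VF w a F)) *
            ((Real.exp ε - 1) / (Real.exp ε ^ (s + 1) - 1)))) (𝓝[>] 0)
      (𝓝 (∑ C ∈ cls0 w h, (-1) ^ (C.card + 1) * ((nuE w e C : ℝ) -
          (if e = 1 ∧ 2 ≤ C.card then (nuE w 1 C : ℝ) / (1 + s) else 0)) * J C)) := by
  classical
  -- the coefficients
  set x : Finset κ → ℝ := fun C => (-1) ^ (C.card + 1) * ((nuE w e C : ℝ) -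
    (if e = 1 ∧ 2 ≤ C.card then (nuE w 1 C : ℝ) / (1 + s) else 0)) with hx
  -- the limit of the contribution of a face
  have key : ∀ F : Finset κ, Tendsto (fun ε : ℝ => SF w s F ε * ∑ d ∈ e.divisors,
      ((ArithmeticFunction.moebius (e / d) : ℤ) : ℝ) *
        (Polynomial.aeval (Real.exp ε) (E.val (WF w a d F)) +
          Polynomial.aeval (Real.exp ε) (E.val (VF w a F)) *
            ((Real.exp ε - 1) / (Real.exp ε ^ (s + 1) - 1)))) (𝓝[>] 0)
      (𝓝 (if (∃ k, fc w k = F) then ∑ C ∈ smp w h F, x C * J C else 0)) := by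
    intro F
    by_cases hF : ∃ k, fc w k = F
    swap
    · rw [if_neg hF]
      push Not at hF
      have : (fun ε : ℝ => SF w s F ε * ∑ d ∈ e.divisors,
          ((ArithmeticFunction.moebius (e / d) : ℤ) : ℝ) *
            (Polynomial.aeval (Real.exp ε) (E.val (WF w a d F)) +
              Polynomial.aeval (Real.exp ε) (E.val (VF w a F)) *
                ((Real.exp ε - 1) / (Real.exp ε ^ (s + 1) - 1)))) = fun _ => 0 := by
        funext ε
        rw [SF_zero w s F ε hF, zero_mul]
      rw [this]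
      exact tendsto_const_nhds
    rw [if_pos hF]
    obtain ⟨k, rfl⟩ := hF
    have hne := fc_nonempty w k
    obtain ⟨q, hq1, hq2, hq3⟩ := hKF E ι κ w a h (fc w k) hne (LIMA13Aux.fce_fc w k) hinj ha hh
    have hW : ∀ d : ℕ, ∃ q : Polynomial ℤ, 1 ≤ d → (E.val (WF w a d (fc w k)) =
        (Polynomial.X - 1) ^ (Fintype.card ι + 1 - rk w (fc w k)) * q ∧
      q.eval 1 = (-1) ^ (rk w (fc w k) + 1) *
        ∑ C ∈ smp w h (fc w k), ∑ e ∈ d.divisors, (nuE w e C : ℤ)) := by
      intro d
      by_cases hd : 1 ≤ d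
      · obtain ⟨q, hq⟩ := hKW E ι κ w a h (fc w k) d hne (LIMA13Aux.fce_fc w k) hd hinj ha hh
        exact ⟨q, fun _ => hq⟩
      · exact ⟨0, fun h => absurd h hd⟩
    choose qd hqd using hW
    set m := Fintype.card ι + 1 - rk w (fc w k) with hm
    -- the limit of the bracket
    have hG : Tendsto (fun ε : ℝ => ∑ d ∈ e.divisors,
        ((ArithmeticFunction.moebius (e / d) : ℤ) : ℝ) *
          (Polynomial.aeval (Real.exp ε) (qd d) + Polynomial.aeval (Real.exp ε) q *
            ((Real.exp ε - 1) / (Real.exp ε ^ (s + 1) - 1)))) (𝓝[>] 0)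
        (𝓝 (∑ C ∈ smp w h (fc w k), x C)) := by
      have h1 : Tendsto (fun ε : ℝ => ∑ d ∈ e.divisors,
        ((ArithmeticFunction.moebius (e / d) : ℤ) : ℝ) *
          (Polynomial.aeval (Real.exp ε) (qd d) + Polynomial.aeval (Real.exp ε) q *
            ((Real.exp ε - 1) / (Real.exp ε ^ (s + 1) - 1)))) (𝓝[>] 0)
        (𝓝 (∑ d ∈ e.divisors, ((ArithmeticFunction.moebius (e / d) : ℤ) : ℝ) *
          ((((qd d).eval 1 : ℤ) : ℝ) + ((q.eval 1 : ℤ) : ℝ) * (1 / (1 + (s : ℝ)))))) :=
        tendsto_finsetSum _ fun d _ =>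
          ((tendsto_aeval _).add ((tendsto_aeval _).mul (tendsto_quot2 s))).const_mul _
      have h2 : (∑ d ∈ e.divisors, ((ArithmeticFunction.moebius (e / d) : ℤ) : ℝ) *
          ((((qd d).eval 1 : ℤ) : ℝ) + ((q.eval 1 : ℤ) : ℝ) * (1 / (1 + (s : ℝ))))) =
          ∑ C ∈ smp w h (fc w k), x C := by
        have h3 : ∑ d ∈ e.divisors, ArithmeticFunction.moebius (e / d) * (qd d).eval 1 =
            (-1) ^ (rk w (fc w k) + 1) * ∑ C ∈ smp w h (fc w k), (nuE w e C : ℤ) := by
          have h4 : ∀ C, (nuE w e C : ℤ) = ∑ d ∈ e.divisors,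
              ArithmeticFunction.moebius (e / d) * ∑ i ∈ d.divisors, (nuE w i C : ℤ) :=
            fun C => (moebius_sum e he fun i => (nuE w i C : ℤ)).symm
          simp only [h4]
          rw [Finset.sum_comm, Finset.mul_sum]
          refine Finset.sum_congr rfl fun d hd => ?_
          rw [(hqd d (Nat.pos_of_mem_divisors hd)).2, ← Finset.mul_sum]
          ring
        have h5 : (∑ d ∈ e.divisors, ((ArithmeticFunction.moebius (e / d) : ℤ) : ℝ) *
            ((((qd d).eval 1 : ℤ) : ℝ) + ((q.eval 1 : ℤ) : ℝ) * (1 / (1 + (s : ℝ))))) =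
            ((∑ d ∈ e.divisors, ArithmeticFunction.moebius (e / d) * (qd d).eval 1 : ℤ) : ℝ) +
              ((∑ d ∈ e.divisors, ArithmeticFunction.moebius (e / d) : ℤ) : ℝ) *
                ((q.eval 1 : ℤ) : ℝ) * (1 / (1 + (s : ℝ))) := by
          push_cast
          rw [Finset.sum_mul, Finset.sum_mul, ← Finset.sum_add_distrib]
          exact Finset.sum_congr rfl fun d _ => by ring
        rw [h5, h3, moebius_one e he]
        have hcard : ∀ C ∈ smp w h (fc w k), C.card = rk w (fc w k) := fun C hC =>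
          (Finset.mem_filter.1 hC).2.1
        by_cases he1 : e = 1
        · by_cases hr2 : 2 ≤ rk w (fc w k)
          · rw [if_pos he1, hq3 hr2]
            push_cast
            rw [Finset.mul_sum, Finset.mul_sum, Finset.mul_sum, Finset.sum_mul,
              ← Finset.sum_add_distrib]
            refine Finset.sum_congr rfl fun C hC => ?_
            rw [hx]
            simp only
            rw [hcard C hC, if_pos ⟨he1, hr2⟩]
            ring
          · have hr1 : rk w (fc w k) = 1 ∨ rk w (fc w k) = 0 := by omega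
            rcases hr1 with hr1 | hr1
            · rw [if_pos he1, hq2 hr1]
              push_cast
              rw [Finset.mul_sum]
              simp only [Polynomial.eval_zero, Int.cast_zero, mul_zero, zero_mul, add_zero]
              refine Finset.sum_congr rfl fun C hC => ?_
              rw [hx]
              simp only
              rw [hcard C hC, if_neg (fun hh => hr2 hh.2), sub_zero]
            · exfalso
              obtain ⟨b, hb⟩ := hne
              have h6 := rk_ge w (fc w k) {b} (by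
                refine LinearIndependent.of_subsingleton (v := fun a : ({b} : Finset κ) =>
                  hat w (Sum.inl (a : κ))) ⟨b, Finset.mem_singleton_self b⟩ ?_
                intro h0
                have := congrFun h0 (Sum.inr ())
                simp [hat] at this) (by simpa using hb)
              rw [Finset.card_singleton] at h6
              omega
        · rw [if_neg he1]
          push_cast
          rw [zero_mul, zero_mul, add_zero, Finset.mul_sum]
          refine Finset.sum_congr rfl fun C hC => ?_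
          rw [hx]
          simp only
          rw [hcard C hC, if_neg (fun hh => he1 hh.1), sub_zero]
      rw [h2] at h1
      exact h1
    -- the limit of the product
    have hprod : Tendsto (fun ε : ℝ => (ε ^ m * SF w s (fc w k) ε) *
        (((Real.exp ε - 1) / ε) ^ m * ∑ d ∈ e.divisors,
        ((ArithmeticFunction.moebius (e / d) : ℤ) : ℝ) *
          (Polynomial.aeval (Real.exp ε) (qd d) + Polynomial.aeval (Real.exp ε) q *
            ((Real.exp ε - 1) / (Real.exp ε ^ (s + 1) - 1))))) (𝓝[>] 0)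
        (𝓝 (∑ C ∈ smp w h (fc w k), x C * J C)) := by
      have hbr : Tendsto (fun ε : ℝ => (((Real.exp ε - 1) / ε) ^ m * ∑ d ∈ e.divisors,
        ((ArithmeticFunction.moebius (e / d) : ℤ) : ℝ) *
          (Polynomial.aeval (Real.exp ε) (qd d) + Polynomial.aeval (Real.exp ε) q *
            ((Real.exp ε - 1) / (Real.exp ε ^ (s + 1) - 1))))) (𝓝[>] 0)
          (𝓝 (∑ C ∈ smp w h (fc w k), x C)) := by
        have := (tendsto_quot.pow m).mul hG
        rwa [one_pow, one_mul] at this
      rcases (smp w h (fc w k)).eq_empty_or_nonempty with hemp | ⟨C₀, hC₀⟩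
      · rw [hemp] at hbr ⊢
        rw [Finset.sum_empty] at hbr ⊢
        obtain ⟨A, hA⟩ := SF_bound hGRK w s (fc w k) hne
        have hb : ∀ᶠ ε in 𝓝[>] (0 : ℝ), ‖ε ^ m * SF w s (fc w k) ε‖ ≤ A := by
          filter_upwards [ev_Ioc] with ε hε
          exact hA ε hε.1 hε.2
        exact bdd_le_mul_tendsto_zero' A hb hbr
      · have hS := (hSMPF ι κ w h hh hfull k C₀).1 hC₀
        have hl := lim_face hGRK hCELI w h hh s C₀ hS.1 k hS.2.1 hS.2.2.symm (J C₀) (hJ C₀ hS.1)
        have h1 := hl.mul hbr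
        rw [Finset.mul_sum] at h1
        have h2 : ∑ C ∈ smp w h (fc w k), J C₀ * x C = ∑ C ∈ smp w h (fc w k), x C * J C := by
          refine Finset.sum_congr rfl fun C hC => ?_
          have hS' := (hSMPF ι κ w h hh hfull k C).1 hC
          have hl' := lim_face hGRK hCELI w h hh s C hS'.1 k hS'.2.1 hS'.2.2.symm (J C)
            (hJ C hS'.1)
          rw [tendsto_nhds_unique hl hl', mul_comm]
        rw [h2] at h1
        exact h1
    refine hprod.congr' ?_
    filter_upwards [ev_Ioc] with ε hε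
    have hε0 : ε ≠ 0 := hε.1.ne'
    have h1 : ∀ d ∈ e.divisors, ((ArithmeticFunction.moebius (e / d) : ℤ) : ℝ) *
        (Polynomial.aeval (Real.exp ε) (E.val (WF w a d (fc w k))) +
          Polynomial.aeval (Real.exp ε) (E.val (VF w a (fc w k))) *
            ((Real.exp ε - 1) / (Real.exp ε ^ (s + 1) - 1))) =
        (Real.exp ε - 1) ^ m * (((ArithmeticFunction.moebius (e / d) : ℤ) : ℝ) *
          (Polynomial.aeval (Real.exp ε) (qd d) + Polynomial.aeval (Real.exp ε) q *
            ((Real.exp ε - 1) / (Real.exp ε ^ (s + 1) - 1)))) := by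
      intro d hd
      rw [(hqd d (Nat.pos_of_mem_divisors hd)).1, hq1]
      simp only [map_mul, map_pow, map_sub, Polynomial.aeval_X, map_one]
      ring
    rw [Finset.sum_congr rfl h1, ← Finset.mul_sum, div_pow]
    field_simp
  -- the sum over all faces
  have hT := tendsto_finsetSum (Finset.univ : Finset (Finset κ)) fun F _ => key F
  suffices hfin : (∑ F : Finset κ, if (∃ k, fc w k = F) then ∑ C ∈ smp w h F, x C * J C else 0) =
      ∑ C ∈ cls0 w h, x C * J C by
    rw [hfin] at hT
    exact hT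
  rw [← Finset.sum_filter]
  -- exchange of the sums
  have h1 : ∀ F ∈ (Finset.univ : Finset (Finset κ)).filter (fun F => ∃ k, fc w k = F),
      ∑ C ∈ smp w h F, x C * J C =
        ∑ C ∈ cls0 w h, if C ∈ smp w h F then x C * J C else 0 := by
    intro F hF
    obtain ⟨k, rfl⟩ := (Finset.mem_filter.1 hF).2
    rw [← Finset.sum_filter]
    refine Finset.sum_congr ?_ fun _ _ => rfl
    ext C
    rw [Finset.mem_filter]
    exact ⟨fun hC => ⟨((hSMPF ι κ w h hh hfull k C).1 hC).1, hC⟩, fun hC => hC.2⟩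
  rw [Finset.sum_congr rfl h1, Finset.sum_comm]
  refine Finset.sum_congr rfl fun C hC => ?_
  have hi := cls0_indep hCELI w h hh C hC
  by_cases hk : ∃ k, C ⊆ fc w k ∧ rk w (fc w k) = C.card
  · obtain ⟨k, hk1, hk2⟩ := hk
    rw [Finset.sum_eq_single (fc w k)]
    · rw [if_pos ((hSMPF ι κ w h hh hfull k C).2 ⟨hC, hk1, hk2.symm⟩)]
    · intro F hF hFne
      obtain ⟨k', rfl⟩ := (Finset.mem_filter.1 hF).2
      rw [if_neg]
      intro hCk'
      have hS := (hSMPF ι κ w h hh hfull k' C).1 hCk'
      exact hFne (Finset.Subset.antisymm (face_unique w k' k C hi hS.2.1 hk1 hS.2.2.symm)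
        (face_unique w k k' C hi hk1 hS.2.1 hk2))
    · intro hno
      exact absurd (Finset.mem_filter.2 ⟨Finset.mem_univ _, k, rfl⟩) hno
  · have hJ0 : J C = 0 := lim_zero hGRK hCELI w h hh s C hC
      (fun k h1 h2 => hk ⟨k, h1, h2⟩) (J C) (hJ C hC)
    rw [hJ0, mul_zero]
    refine Finset.sum_eq_zero fun F _ => ?_
    rw [ite_self]


end LIMA13Aux

open LIMAAux

theorem stmt_LIMA13 (hLIMB : Stmt_LIMB) (hKF : Stmt_KF13) (hKW : Stmt_KW13)
    (hSMPF : Stmt_SMPF) (hGRK : Stmt_GRK) (hCELI : Stmt_CELI) : Stmt_LIMA13 := by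
  classical
  intro E ι κ _ _ _ _ _ w a h e R hinj ha hh hfull he hR
  obtain ⟨c, hc⟩ := hLIMB E ι κ w a e R (LIMA13Aux.nd_of_ndP w a ha) he hR
  exact ⟨c, fun s J hs hRs hJ => tendsto_nhds_unique (hc s hRs)
    (LIMA13Aux.faces_lim hKF hKW hSMPF hGRK hCELI E w a h e hinj ha hh hfull he s J hJ)⟩

end Pool.Agent.Mono.NP
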