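import Pool.Agent.Work.Monodromy.Interface13

/-!
# Phase 13, block MW: Minkowski-Weyl over the rational numbers (helper46)

Fourier-Motzkin: the cone generated by `W v`, `v ∈ s`, is cut out by finitely many integral linear
forms; induction on the finite set `s`.
-/

set_option autoImplicit false

namespace Pool.Agent.Mono.NP

namespace MWAux

open Classical in
lemma base {τ κ : Type} [Fintype τ] [Fintype κ] (W : κ → τ → ℤ) :
    ∃ L : Finset (τ → ℤ), (∀ l ∈ L, ∀ v ∈ (∅ : Finset κ), 0 ≤ ∑ t, l t * W v t) ∧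
      ∀ y : τ → ℚ, (∀ l ∈ L, 0 ≤ ∑ t, (l t : ℚ) * y t) →
        ∃ c : κ → ℚ, (∀ v, 0 ≤ c v) ∧ (∀ v, v ∉ (∅ : Finset κ) → c v = 0) ∧
          ∀ t, y t = ∑ v, c v * W v t := by
  refine ⟨Finset.univ.image (fun t : τ => (Pi.single t 1 : τ → ℤ)) ∪
    Finset.univ.image (fun t : τ => (Pi.single t (-1) : τ → ℤ)), ?_, ?_⟩
  · intro l _ v hv
    simp at hv
  · intro y hy
    refine ⟨fun _ => 0, fun _ => le_rfl, fun _ _ => rfl, fun t => ?_⟩
    have h1 := hy (Pi.single t 1) (Finset.mem_union_left _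
      (Finset.mem_image_of_mem _ (Finset.mem_univ t)))
    have h2 := hy (Pi.single t (-1)) (Finset.mem_union_right _
      (Finset.mem_image_of_mem _ (Finset.mem_univ t)))
    have e1 : ∑ t', ((Pi.single t (1 : ℤ) : τ → ℤ) t' : ℚ) * y t' = y t := by
      rw [Finset.sum_eq_single t]
      · simp
      · intro b _ hb
        simp [Pi.single_eq_of_ne hb]
      · intro h
        exact absurd (Finset.mem_univ t) h
    have e2 : ∑ t', ((Pi.single t (-1 : ℤ) : τ → ℤ) t' : ℚ) * y t' = - y t := by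
      rw [Finset.sum_eq_single t]
      · simp
      · intro b _ hb
        simp [Pi.single_eq_of_ne hb]
      · intro h
        exact absurd (Finset.mem_univ t) h
    rw [e1] at h1
    rw [e2] at h2
    simp only [zero_mul, Finset.sum_const_zero]
    linarith

open Classical in
lemma step {τ κ : Type} [Fintype τ] [Fintype κ] (W : κ → τ → ℤ) (a : κ) (s : Finset κ)
    (ih : ∃ L : Finset (τ → ℤ), (∀ l ∈ L, ∀ v ∈ s, 0 ≤ ∑ t, l t * W v t) ∧
      ∀ y : τ → ℚ, (∀ l ∈ L, 0 ≤ ∑ t, (l t : ℚ) * y t) →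
        ∃ c : κ → ℚ, (∀ v, 0 ≤ c v) ∧ (∀ v, v ∉ s → c v = 0) ∧
          ∀ t, y t = ∑ v, c v * W v t) :
    ∃ L : Finset (τ → ℤ), (∀ l ∈ L, ∀ v ∈ insert a s, 0 ≤ ∑ t, l t * W v t) ∧
      ∀ y : τ → ℚ, (∀ l ∈ L, 0 ≤ ∑ t, (l t : ℚ) * y t) →
        ∃ c : κ → ℚ, (∀ v, 0 ≤ c v) ∧ (∀ v, v ∉ insert a s → c v = 0) ∧
          ∀ t, y t = ∑ v, c v * W v t := by
  obtain ⟨L, hL1, hL2⟩ := ih
  set D : (τ → ℤ) → ℤ := fun l => ∑ t, l t * W a t with hD
  set cm : (τ → ℤ) × (τ → ℤ) → τ → ℤ := fun p t => D p.1 * p.2 t - D p.2 * p.1 t with hcm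
  have hcmW : ∀ (p : (τ → ℤ) × (τ → ℤ)) (v : κ), ∑ t, cm p t * W v t =
      D p.1 * (∑ t, p.2 t * W v t) - D p.2 * (∑ t, p.1 t * W v t) := by
    intro p v
    rw [Finset.mul_sum, Finset.mul_sum, ← Finset.sum_sub_distrib]
    refine Finset.sum_congr rfl fun t _ => ?_
    simp only [hcm]
    ring
  have hcmy : ∀ (p : (τ → ℤ) × (τ → ℤ)) (y : τ → ℚ), ∑ t, (cm p t : ℚ) * y t =
      (D p.1 : ℚ) * (∑ t, (p.2 t : ℚ) * y t) - (D p.2 : ℚ) * (∑ t, (p.1 t : ℚ) * y t) := by
    intro p y
    rw [Finset.mul_sum, Finset.mul_sum, ← Finset.sum_sub_distrib]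
    refine Finset.sum_congr rfl fun t _ => ?_
    simp only [hcm]
    push_cast
    ring
  refine ⟨L.filter (fun l => 0 ≤ D l) ∪
    ((L ×ˢ L).filter (fun p => 0 < D p.1 ∧ D p.2 < 0)).image cm, ?_, ?_⟩
  · intro l hl v hv
    rcases Finset.mem_union.1 hl with hl | hl
    · obtain ⟨hl1, hl2⟩ := Finset.mem_filter.1 hl
      rcases Finset.mem_insert.1 hv with rfl | hv
      · exact hl2
      · exact hL1 l hl1 v hv
    · obtain ⟨p, hp, rfl⟩ := Finset.mem_image.1 hl
      obtain ⟨hp1, hp2, hp3⟩ := Finset.mem_filter.1 hp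
      obtain ⟨hq1, hq2⟩ := Finset.mem_product.1 hp1
      rw [hcmW]
      rcases Finset.mem_insert.1 hv with rfl | hv
      · have : D p.1 * D p.2 - D p.2 * D p.1 = 0 := by ring
        exact this.ge
      · have h1 := hL1 p.1 hq1 v hv
        have h2 := hL1 p.2 hq2 v hv
        have h3 : 0 ≤ D p.1 * (∑ t, p.2 t * W v t) := mul_nonneg hp2.le h2
        have h4 : 0 ≤ (-D p.2) * (∑ t, p.1 t * W v t) := mul_nonneg (by omega) h1
        linarith
  · intro y hy
    set T : Finset ℚ := insert 0 ((L.filter (fun l => D l < 0)).image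
      (fun l => (∑ t, (l t : ℚ) * y t) / (D l : ℚ))) with hT
    have hTne : T.Nonempty := ⟨0, Finset.mem_insert_self _ _⟩
    set t₀ : ℚ := T.max' hTne with ht₀
    have ht₀0 : 0 ≤ t₀ := Finset.le_max' T 0 (Finset.mem_insert_self _ _)
    have key : ∀ l ∈ L, (D l : ℚ) * t₀ ≤ ∑ t, (l t : ℚ) * y t := by
      intro l hl
      by_cases hneg : D l < 0
      · have hmem : (∑ t, (l t : ℚ) * y t) / (D l : ℚ) ∈ T := by
          rw [hT]
          exact Finset.mem_insert_of_mem (Finset.mem_image.2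
            ⟨l, Finset.mem_filter.2 ⟨hl, hneg⟩, rfl⟩)
        have h1 := Finset.le_max' T _ hmem
        rw [← ht₀] at h1
        have hneg' : (D l : ℚ) < 0 := by exact_mod_cast hneg
        have h2 := (div_le_iff_of_neg hneg').1 h1
        linarith
      · have hpos : 0 ≤ D l := not_lt.1 hneg
        have hly : 0 ≤ ∑ t, (l t : ℚ) * y t :=
          hy l (Finset.mem_union_left _ (Finset.mem_filter.2 ⟨hl, hpos⟩))
        have hmax : t₀ ∈ T := Finset.max'_mem T hTne
        rw [hT] at hmax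
        rcases Finset.mem_insert.1 hmax with h0 | h0
        · rw [h0, mul_zero]
          exact hly
        · obtain ⟨l', hl', he⟩ := Finset.mem_image.1 h0
          obtain ⟨hl'1, hl'2⟩ := Finset.mem_filter.1 hl'
          have hneg' : (D l' : ℚ) < 0 := by exact_mod_cast hl'2
          rcases hpos.lt_or_eq with hpos | hzero
          · have h3 := hy (cm (l, l')) (Finset.mem_union_right _ (Finset.mem_image.2
              ⟨(l, l'), Finset.mem_filter.2 ⟨Finset.mem_product.2 ⟨hl, hl'1⟩, hpos, hl'2⟩, rfl⟩))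
            rw [hcmy] at h3
            have h4 : (D l' : ℚ) * t₀ = ∑ t, (l' t : ℚ) * y t := by
              rw [← he, mul_div_assoc', mul_comm (D l' : ℚ), mul_div_assoc, div_self hneg'.ne, mul_one]
            simp only at h3
            rw [← h4] at h3
            have h5 : 0 ≤ (D l' : ℚ) * ((D l : ℚ) * t₀ - ∑ t, (l t : ℚ) * y t) := by
              linarith
            by_contra hcon
            push Not at hcon
            have h6 : 0 < (D l : ℚ) * t₀ - ∑ t, (l t : ℚ) * y t := by linarith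
            have h7 := mul_neg_of_neg_of_pos hneg' h6
            linarith
          · rw [← hzero]
            simp only [Int.cast_zero, zero_mul]
            exact hly
    obtain ⟨c, hc1, hc2, hc3⟩ := hL2 (fun t => y t - t₀ * (W a t : ℚ)) (by
      intro l hl
      have h1 := key l hl
      have h2 : ∑ t, (l t : ℚ) * (y t - t₀ * (W a t : ℚ)) =
          ∑ t, (l t : ℚ) * y t - (D l : ℚ) * t₀ := by
        have h3 : (D l : ℚ) = ∑ t, (l t : ℚ) * (W a t : ℚ) := by
          simp only [hD]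
          push_cast
          rfl
        rw [h3, Finset.sum_mul, ← Finset.sum_sub_distrib]
        refine Finset.sum_congr rfl fun t _ => ?_
        ring
      rw [h2]
      linarith)
    refine ⟨fun v => c v + if v = a then t₀ else 0, fun v => ?_, fun v hv => ?_, fun t => ?_⟩
    · have := hc1 v
      by_cases hva : v = a
      · simp only [if_pos hva]
        linarith
      · simp only [if_neg hva]
        linarith
    · have h1 : v ≠ a := fun h => hv (h ▸ Finset.mem_insert_self _ _)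
      have h2 : v ∉ s := fun h => hv (Finset.mem_insert_of_mem h)
      simp only [if_neg h1, hc2 v h2, add_zero]
    · have h1 := hc3 t
      have h2 : ∑ v, (c v + if v = a then t₀ else 0) * (W v t : ℚ) =
          ∑ v, c v * (W v t : ℚ) + t₀ * (W a t : ℚ) := by
        simp only [add_mul, Finset.sum_add_distrib, ite_mul, zero_mul, Finset.sum_ite_eq',
          Finset.mem_univ, if_true]
      rw [h2, ← h1]
      ring

end MWAux

/-- block MW -/
theorem stmt_MW : Stmt_MW := by
  classical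
  intro τ κ _ _ W
  have main : ∀ s : Finset κ, ∃ L : Finset (τ → ℤ), (∀ l ∈ L, ∀ v ∈ s, 0 ≤ ∑ t, l t * W v t) ∧
      ∀ y : τ → ℚ, (∀ l ∈ L, 0 ≤ ∑ t, (l t : ℚ) * y t) →
        ∃ c : κ → ℚ, (∀ v, 0 ≤ c v) ∧ (∀ v, v ∉ s → c v = 0) ∧
          ∀ t, y t = ∑ v, c v * W v t := by
    intro s
    induction s using Finset.induction_on with
    | empty => exact MWAux.base W
    | insert a s _ ih => exact MWAux.step W a s ih
  obtain ⟨L, h1, h2⟩ := main Finset.univ
  refine ⟨L, fun l hl v => h1 l hl v (Finset.mem_univ v), fun y hy => ?_⟩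
  obtain ⟨c, hc1, _, hc3⟩ := h2 y hy
  exact ⟨c, hc1, hc3⟩

end Pool.Agent.Mono.NP
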