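import Pool.Agent.Work.Monodromy.Interface13


/-!
# Block NUL of phase 13 (helper48)

The monomials of some degree are in the ideal generated by the toric ideal and the linear forms.
-/

set_option autoImplicit false
set_option linter.unusedSectionVars false

namespace Pool.Agent.Mono.NP.NULAux

open MvPolynomial

variable {ι κ : Type} [Fintype ι] [DecidableEq ι] [Fintype κ] [DecidableEq κ]

/-- the toric relations -/
def Rel (w : κ → ι → ℕ) (m m' : κ →₀ ℕ) : Prop :=
  m.degree = m'.degree ∧ ∀ i, ∑ v, m v * w v i = ∑ v, m' v * w v i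

/-- the binomials -/
def Bin (w : κ → ι → ℕ) : Set (MvPolynomial κ ℂ) :=
  {p | ∃ m m' : κ →₀ ℕ, Rel w m m' ∧ p = monomial m 1 - monomial m' 1}

lemma Rel.add {w : κ → ι → ℕ} {m m' : κ →₀ ℕ} (h : Rel w m m') (n : κ →₀ ℕ) :
    Rel w (n + m) (n + m') := by
  refine ⟨by simp [h.1], fun i => ?_⟩
  simp only [Finsupp.add_apply, add_mul, Finset.sum_add_distrib]
  rw [h.2 i]

lemma mul_mem_span {w : κ → ι → ℕ} (r : MvPolynomial κ ℂ) {q : MvPolynomial κ ℂ}
    (hq : q ∈ Submodule.span ℂ (Bin w)) : r * q ∈ Submodule.span ℂ (Bin w) := by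
  induction r using MvPolynomial.induction_on' with
  | monomial n c =>
    induction hq using Submodule.span_induction with
    | mem x hx =>
      obtain ⟨m, m', h, rfl⟩ := hx
      have : monomial n c * (monomial m 1 - monomial m' 1 : MvPolynomial κ ℂ) =
          c • (monomial (n + m) 1 - monomial (n + m') 1) := by
        rw [mul_sub, monomial_mul, monomial_mul, mul_one, smul_sub, smul_monomial, smul_monomial,
          smul_eq_mul, mul_one]
      rw [this]
      exact Submodule.smul_mem _ _ (Submodule.subset_span ⟨_, _, h.add n, rfl⟩)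
    | zero => simp
    | add x y _ _ hx hy => rw [mul_add]; exact Submodule.add_mem _ hx hy
    | smul a x _ hx => rw [mul_smul_comm]; exact Submodule.smul_mem _ _ hx
  | add p p' hp hp' => rw [add_mul]; exact Submodule.add_mem _ hp hp'

/-- the ideal -/
noncomputable def Idl (w : κ → ι → ℕ) (a : κ → ℂ) : Ideal (MvPolynomial κ ℂ) :=
  Ideal.span (Bin w ∪ Set.range (LinF w a))

lemma mem_Idl {w : κ → ι → ℕ} {a : κ → ℂ} {p : MvPolynomial κ ℂ} (hp : p ∈ Idl w a) :
    ∃ (G : Option ι → MvPolynomial κ ℂ) (q : MvPolynomial κ ℂ),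
      q ∈ Submodule.span ℂ (Bin w) ∧ p = ∑ o, G o * LinF w a o + q := by
  unfold Idl at hp
  induction hp using Submodule.span_induction with
  | mem x hx =>
    rcases hx with hx | ⟨o, rfl⟩
    · exact ⟨0, x, Submodule.subset_span hx, by simp⟩
    · refine ⟨Pi.single o 1, 0, Submodule.zero_mem _, ?_⟩
      rw [add_zero, Finset.sum_eq_single o]
      · simp
      · intro b _ hb
        simp [Pi.single_eq_of_ne hb]
      · intro h; exact absurd (Finset.mem_univ _) h
  | zero => exact ⟨0, 0, Submodule.zero_mem _, by simp⟩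
  | add x y _ _ hx hy =>
    obtain ⟨G, q, hq, rfl⟩ := hx
    obtain ⟨G', q', hq', rfl⟩ := hy
    refine ⟨G + G', q + q', Submodule.add_mem _ hq hq', ?_⟩
    simp only [Pi.add_apply, add_mul, Finset.sum_add_distrib]
    ring
  | smul r x _ hx =>
    obtain ⟨G, q, hq, rfl⟩ := hx
    refine ⟨fun o => r * G o, r * q, mul_mem_span r hq, ?_⟩
    rw [smul_eq_mul, mul_add, Finset.mul_sum]
    simp only [mul_assoc]

lemma eval_LinF_none (w : κ → ι → ℕ) (a t : κ → ℂ) :
    eval t (LinF w a none) = ∑ v, a v * t v := by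
  simp [LinF]

lemma eval_LinF_some (w : κ → ι → ℕ) (a t : κ → ℂ) (i : ι) :
    eval t (LinF w a (some i)) = ∑ v, (w v i : ℂ) * a v * t v := by
  simp [LinF]

lemma zero_of_mem (hTOR : Stmt_TOR) {w : κ → ι → ℕ} {a : κ → ℂ} (hN : NdP w a) {t : κ → ℂ}
    (ht : ∀ p ∈ Idl w a, eval t p = 0) : t = 0 := by
  classical
  by_contra hne
  obtain ⟨v₀, hv₀⟩ : ∃ v, t v ≠ 0 := by
    by_contra h
    push Not at h
    exact hne (funext h)
  set F : Finset κ := Finset.univ.filter (fun v => t v ≠ 0) with hF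
  have hmF : ∀ v, v ∈ F ↔ t v ≠ 0 := fun v => by simp [hF]
  obtain ⟨hface, x, c, hx, hc, hxc⟩ := hTOR ι κ w t (by
    intro m m' h1 h2
    have h := ht _ (Ideal.subset_span (Or.inl ⟨Finsupp.equivFunOnFinite.symm m,
      Finsupp.equivFunOnFinite.symm m', ⟨by
        rw [Finsupp.degree_eq_sum, Finsupp.degree_eq_sum]; simpa using h1, by simpa using h2⟩,
        rfl⟩))
    rw [map_sub, sub_eq_zero, eval_monomial, eval_monomial, one_mul, one_mul,
      Finsupp.prod_fintype _ _ (by simp), Finsupp.prod_fintype _ _ (by simp)] at h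
    simpa using h) F hmF
  have key : ∀ g : κ → ℂ, ∑ v, g v * t v = c * ∑ v ∈ F, g v * ∏ i, x i ^ w v i := by
    intro g
    rw [Finset.mul_sum]
    rw [← Finset.sum_subset (Finset.subset_univ F) (f := fun v => g v * t v)]
    · refine Finset.sum_congr rfl fun v hv => ?_
      rw [hxc v hv]; ring
    · intro v _ hv
      have : t v = 0 := by
        by_contra h
        exact hv ((hmF v).2 h)
      rw [this, mul_zero]
  have h0 : ∑ v ∈ F, a v * ∏ i, x i ^ w v i = 0 := by
    have h := ht _ (Ideal.subset_span (Or.inr ⟨none, rfl⟩))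
    rw [eval_LinF_none, key] at h
    exact (mul_eq_zero.1 h).resolve_left hc
  obtain ⟨i, hi⟩ := hN F ⟨v₀, (hmF v₀).2 hv₀⟩ hface x hx h0
  have h := ht _ (Ideal.subset_span (Or.inr ⟨some i, rfl⟩))
  rw [eval_LinF_some, key (fun v => (w v i : ℂ) * a v)] at h
  apply hi
  have h' := (mul_eq_zero.1 h).resolve_left hc
  rw [← h']
  exact Finset.sum_congr rfl fun v _ => by ring

lemma pow_mem (hTOR : Stmt_TOR) {w : κ → ι → ℕ} {a : κ → ℂ} (hN : NdP w a) (v : κ) :
    ∃ n : ℕ, (X v : MvPolynomial κ ℂ) ^ n ∈ Idl w a := by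
  have h : (X v : MvPolynomial κ ℂ) ∈ vanishingIdeal ℂ (zeroLocus ℂ (Idl w a)) := by
    rw [mem_vanishingIdeal_iff]
    intro t ht
    rw [mem_zeroLocus_iff] at ht
    have : t = 0 := zero_of_mem hTOR hN (fun p hp => by
      have := ht p hp
      simpa [aeval_eq_eval] using this)
    simp [this]
  rw [vanishingIdeal_zeroLocus_eq_radical] at h
  exact h

lemma exists_degree (hTOR : Stmt_TOR) {w : κ → ι → ℕ} {a : κ → ℂ} (hN : NdP w a) :
    ∃ d : ℕ, 1 ≤ d ∧ ∀ m : κ →₀ ℕ, m.degree = d → (monomial m 1 : MvPolynomial κ ℂ) ∈ Idl w a := by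
  choose n hn using fun v => pow_mem hTOR hN v
  refine ⟨∑ v, n v + 1, by omega, fun m hm => ?_⟩
  obtain ⟨v, hv⟩ : ∃ v, n v ≤ m v := by
    by_contra h
    push Not at h
    rw [Finsupp.degree_eq_sum] at hm
    have : ∑ v, m v ≤ ∑ v, n v := Finset.sum_le_sum fun v _ => (h v).le
    omega
  have h1 : (monomial m 1 : MvPolynomial κ ℂ) =
      monomial (m - Finsupp.single v (n v)) 1 * X v ^ n v := by
    rw [X_pow_eq_monomial, monomial_mul, one_mul, tsub_add_cancel_of_le]
    rw [Finsupp.single_le_iff]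
    exact hv
  rw [h1]
  exact Ideal.mul_mem_left _ _ (hn v)

/-- the homogeneous component of a product with a linear form -/
lemma comp_mul {L : MvPolynomial κ ℂ} (hL : L.IsHomogeneous 1) (G : MvPolynomial κ ℂ) {d : ℕ}
    (hd : 1 ≤ d) :
    homogeneousComponent d (G * L) = homogeneousComponent (d - 1) G * L := by
  conv_lhs => rw [← sum_homogeneousComponent G]
  rw [Finset.sum_mul, map_sum]
  have h1 : ∀ i, homogeneousComponent d (homogeneousComponent i G * L) =
      if i = d - 1 then homogeneousComponent (d - 1) G * L else 0 := by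
    intro i
    have hm : homogeneousComponent i G * L ∈ homogeneousSubmodule κ ℂ (i + 1) := by
      rw [mem_homogeneousSubmodule]
      exact (homogeneousComponent_isHomogeneous i G).mul hL
    rw [homogeneousComponent_of_mem hm]
    by_cases hi : i = d - 1
    · subst hi
      rw [if_pos (by omega), if_pos rfl]
    · rw [if_neg (by omega), if_neg hi]
  simp only [h1]
  rw [Finset.sum_ite_eq']
  split_ifs with h
  · rfl
  · have : homogeneousComponent (d - 1) G = 0 := by
      apply homogeneousComponent_eq_zero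
      rw [Finset.mem_range] at h
      omega
    rw [this, zero_mul]

lemma LinF_homog (w : κ → ι → ℕ) (a : κ → ℂ) (o : Option ι) : (LinF w a o).IsHomogeneous 1 := by
  cases o with
  | none => exact IsHomogeneous.sum _ _ _ fun v _ => isHomogeneous_C_mul_X _ _
  | some i => exact IsHomogeneous.sum _ _ _ fun v _ => isHomogeneous_C_mul_X _ _

lemma vanish {w : κ → ι → ℕ} (Λ : MvPolynomial κ ℂ →ₗ[ℂ] ℂ)
    (h : ∀ m m' : κ →₀ ℕ, m.degree = m'.degree →
      (∀ i, ∑ v, m v * w v i = ∑ v, m' v * w v i) → Λ (monomial m 1) = Λ (monomial m' 1))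
    (d : ℕ) {q : MvPolynomial κ ℂ} (hq : q ∈ Submodule.span ℂ (Bin w)) :
    Λ (homogeneousComponent d q) = 0 := by
  induction hq using Submodule.span_induction with
  | mem x hx =>
    obtain ⟨m, m', hR, rfl⟩ := hx
    have hm : (monomial m 1 - monomial m' 1 : MvPolynomial κ ℂ) ∈
        homogeneousSubmodule κ ℂ m.degree := by
      rw [mem_homogeneousSubmodule]
      exact (isHomogeneous_monomial _ rfl).sub (isHomogeneous_monomial _ hR.1.symm)
    rw [homogeneousComponent_of_mem hm]
    split_ifs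
    · rw [map_sub, h m m' hR.1 hR.2, sub_self]
    · rw [map_zero]
  | zero => simp
  | add x y _ _ hx hy => rw [map_add, map_add, hx, hy, add_zero]
  | smul a x _ hx => rw [map_smul, map_smul, hx, smul_zero]

end Pool.Agent.Mono.NP.NULAux

namespace Pool.Agent.Mono.NP

open MvPolynomial

theorem stmt_NUL (hTOR : Stmt_TOR) : Stmt_NUL := by
  intro ι κ _ _ _ _ w a hN
  obtain ⟨d, hd, hmem⟩ := NULAux.exists_degree hTOR hN
  refine ⟨d, hd, fun m hm => ?_⟩
  obtain ⟨G, q, hq, hG⟩ := NULAux.mem_Idl (hmem m hm)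
  refine ⟨fun o => homogeneousComponent (d - 1) (G o),
    fun o => homogeneousComponent_isHomogeneous _ _, fun Λ hΛ => ?_⟩
  have h1 : homogeneousComponent d (monomial m 1 : MvPolynomial κ ℂ) = monomial m 1 :=
    homogeneousComponent_eq_self (isHomogeneous_monomial _ hm)
  rw [← h1, hG, map_add, map_add, NULAux.vanish Λ hΛ d hq, add_zero, map_sum, map_sum]
  refine Finset.sum_congr rfl fun o _ => ?_
  rw [NULAux.comp_mul (NULAux.LinF_homog w a o) _ hd]

end Pool.Agent.Mono.NP
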