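import Pool.Agent.Work.Monodromy.Interface13
import Pool.Agent.Work.Monodromy12.KG12

/-!
# Block SEQ: generic coefficients are dense (helper17)
-/

set_option autoImplicit false

namespace Pool.Agent.Mono.NP

open Filter Topology

theorem stmt_SEQ (hG : Stmt_KG) : Stmt_SEQ := by
  intro κ _ a
  obtain ⟨g, hg, -⟩ := hG κ (Set.range a ∪ Set.range fun n : ℕ => 1 / ((n : ℂ) + 1))
    ((Set.countable_range a).union (Set.countable_range _))
  refine ⟨fun n v => a v + 1 / ((n : ℂ) + 1) * g v, fun n => hg a (fun _ => 1 / ((n : ℂ) + 1))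
    fun v => ⟨Or.inl ⟨v, rfl⟩, Or.inr ⟨n, rfl⟩, ?_⟩, ?_⟩
  · exact one_div_ne_zero (Nat.cast_add_one_ne_zero n)
  · rw [tendsto_pi_nhds]
    intro v
    have h1 : Tendsto (fun n : ℕ => 1 / ((n : ℂ) + 1)) atTop (𝓝 0) :=
      tendsto_one_div_add_atTop_nhds_zero_nat
    have h2 := (h1.mul_const (g v)).const_add (a v)
    simpa using h2

end Pool.Agent.Mono.NP
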