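import Pool.Agent.Work.Monodromy.Interface13

/-!
# Block SPEC: specialisation of functionals (helper45)
-/

set_option autoImplicit false

namespace Pool.Agent.Mono.NP

open MvPolynomial Filter Topology

namespace SPECAux

variable {ι κ : Type} [Fintype ι] [DecidableEq ι] [Fintype κ] [DecidableEq κ]

open Classical in
/-- `Φ` put equal to zero at the points which are not allowed -/
noncomputable def cut (J : Finset ι) (Φ : ℤ → (ι → ℤ) → ℂ) (k : ℤ) (u : ι → ℤ) : ℂ :=
  if ∀ j, j ∉ J → 0 ≤ u j then Φ k u else 0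

theorem cut_pos {J : Finset ι} {Φ : ℤ → (ι → ℤ) → ℂ} {k : ℤ} {u : ι → ℤ}
    (h : ∀ j, j ∉ J → 0 ≤ u j) : cut J Φ k u = Φ k u := if_pos h

theorem cut_neg {J : Finset ι} {Φ : ℤ → (ι → ℤ) → ℂ} {k : ℤ} {u : ι → ℤ}
    (h : ¬ ∀ j, j ∉ J → 0 ≤ u j) : cut J Φ k u = 0 := if_neg h

theorem rl_cut {w : κ → ι → ℕ} {b : κ → ℂ} {J : Finset ι} {ν : ι → ℚ} {β : ℚ} {k₀ : ℤ}
    {Φ : ℤ → (ι → ℤ) → ℂ} (hν : ∀ i, i ∉ J → ν i = 0) (h : Rl w b J ν β k₀ Φ) :
    Rl w b J ν β k₀ (cut J Φ) := by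
  obtain ⟨h1, h2, h3⟩ := h
  refine ⟨?_, ?_, ?_⟩
  · intro k u i hu
    have e1 : ∀ v, (w v i : ℂ) * (b v * cut J Φ (k + 1)
        (fun j => u j + w v j - if j = i then 1 else 0)) =
        (w v i : ℂ) * (b v * Φ (k + 1) (fun j => u j + w v j - if j = i then 1 else 0)) := by
      intro v
      by_cases hw : w v i = 0
      · rw [hw]; simp
      · rw [cut_pos]
        intro j hj
        have hj0 := hu j hj
        by_cases hji : j = i
        · subst hji
          rw [if_pos rfl]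
          have : 1 ≤ (w v j : ℤ) := by
            have := Nat.pos_of_ne_zero hw
            exact_mod_cast this
          linarith
        · rw [if_neg hji]
          have : (0 : ℤ) ≤ w v j := Int.natCast_nonneg _
          linarith
    rw [Finset.sum_congr rfl fun v _ => e1 v, h1 k u i hu]
    by_cases ha : ∀ j, j ∉ J → 0 ≤ (fun j => u j - if j = i then (1 : ℤ) else 0) j
    · rw [cut_pos ha]
    · have hi : i ∉ J ∧ u i = 0 := by
        push Not at ha
        obtain ⟨j, hj, hlt⟩ := ha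
        have hj0 := hu j hj
        by_cases hji : j = i
        · subst hji
          rw [if_pos rfl] at hlt
          exact ⟨hj, by omega⟩
        · rw [if_neg hji] at hlt
          omega
      rw [hi.2, hν i hi.1]
      simp
  · intro k u hu
    have e1 : ∀ v, b v * cut J Φ (k + 1) (fun j => u j + w v j) =
        b v * Φ (k + 1) (fun j => u j + w v j) := by
      intro v
      rw [cut_pos]
      intro j hj
      have hj0 := hu j hj
      have : (0 : ℤ) ≤ w v j := Int.natCast_nonneg _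
      linarith
    rw [Finset.sum_congr rfl fun v _ => e1 v, h2 k u hu, cut_pos hu]
  · intro k hk u hu
    rw [cut_pos hu]
    exact h3 k hk u hu

theorem rl_smul {w : κ → ι → ℕ} {b : κ → ℂ} {J : Finset ι} {ν : ι → ℚ} {β : ℚ} {k₀ : ℤ}
    {Φ : ℤ → (ι → ℤ) → ℂ} (c : ℂ) (h : Rl w b J ν β k₀ Φ) :
    Rl w b J ν β k₀ (fun k u => c * Φ k u) := by
  obtain ⟨h1, h2, h3⟩ := h
  refine ⟨?_, ?_, ?_⟩
  · intro k u i hu
    have e := h1 k u i hu
    calc ∑ v, (w v i : ℂ) * (b v * (c * Φ (k + 1) (fun j => u j + w v j - if j = i then 1 else 0)))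
        = c * ∑ v, (w v i : ℂ) * (b v * Φ (k + 1)
            (fun j => u j + w v j - if j = i then 1 else 0)) := by
          rw [Finset.mul_sum]
          exact Finset.sum_congr rfl fun v _ => by ring
      _ = _ := by rw [e]; ring
  · intro k u hu
    have e := h2 k u hu
    calc ∑ v, b v * (c * Φ (k + 1) (fun j => u j + w v j))
        = c * ∑ v, b v * Φ (k + 1) (fun j => u j + w v j) := by
          rw [Finset.mul_sum]
          exact Finset.sum_congr rfl fun v _ => by ring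
      _ = _ := by rw [e]; ring
  · intro k hk u hu
    change c * Φ k u = 0
    rw [h3 k hk u hu, mul_zero]

/-- a bounded sequence converges along an ultrafilter -/
theorem exists_lim (U : Ultrafilter ℕ) (f : ℕ → ℂ) (B : ℝ) (h : ∀ n, ‖f n‖ ≤ B) :
    ∃ z : ℂ, Tendsto f U (𝓝 z) := by
  have hK : IsCompact (Metric.closedBall (0 : ℂ) B) := isCompact_closedBall 0 B
  obtain ⟨z, _, hz⟩ := hK.ultrafilter_le_nhds (U.map f) (by
    rw [Filter.le_principal_iff, Ultrafilter.mem_coe, Ultrafilter.mem_map]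
    refine Filter.mem_of_superset Filter.univ_mem ?_
    intro n _
    rw [Set.mem_preimage, mem_closedBall_zero_iff]
    exact h n)
  exact ⟨z, hz⟩

end SPECAux

open SPECAux in
theorem stmt_SPEC (hU : Stmt_UBD) (hS : Stmt_SEQ) : Stmt_SPEC := by
  intro ι κ _ _ _ _ w a J ν β k₀ hNd hν hex
  obtain ⟨I₀, δ, hδ, hI0, hB⟩ := hU ι κ w a hNd J ν β k₀
  obtain ⟨b, hbi, hbt⟩ := hS κ a
  -- near `a`
  have hbv : ∀ v, Tendsto (fun n => b n v) atTop (𝓝 (a v)) := fun v =>
    ((continuous_apply v).tendsto a).comp hbt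
  have hnear : ∀ᶠ n in atTop, ∀ v, ‖b n v - a v‖ ≤ δ := by
    rw [Filter.eventually_all]
    intro v
    have h1 := (hbv v).eventually (Metric.closedBall_mem_nhds (a v) hδ)
    filter_upwards [h1] with n hn
    rwa [dist_eq_norm] at hn
  obtain ⟨N, hN⟩ := Filter.eventually_atTop.1 hnear
  choose F hF1 hF2 using fun n : ℕ => hex (b (N + n)) (hbi (N + n))
  have hc : ∀ n, Rl w (b (N + n)) J ν β k₀ (cut J (F n)) := fun n => rl_cut hν (hF1 n)
  set S : ℕ → ℝ := fun n => ∑ q ∈ I₀, ‖cut J (F n) q.1 q.2‖ with hSdef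
  have hSnn : ∀ n, 0 ≤ S n := fun n => Finset.sum_nonneg fun q _ => norm_nonneg _
  have hle : ∀ n, ∀ q ∈ I₀, ‖cut J (F n) q.1 q.2‖ ≤ S n := fun n q hq =>
    Finset.single_le_sum (f := fun q => ‖cut J (F n) q.1 q.2‖) (fun q _ => norm_nonneg _) hq
  have hSpos : ∀ n, 0 < S n := by
    intro n
    rcases (hSnn n).lt_or_eq with h | h
    · exact h
    · exfalso
      obtain ⟨k, u, hu, hne⟩ := hF2 n
      obtain ⟨B, _, hB2⟩ := hB k u hu
      have h2 := hB2 (b (N + n)) (cut J (F n)) (S n) (hN _ (Nat.le_add_right _ _)) (hc n)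
        (hSnn n) (hle n)
      rw [← h, mul_zero, cut_pos hu] at h2
      exact hne (norm_le_zero_iff.1 h2)
  -- normalised functions
  set Ψ : ℕ → ℤ → (ι → ℤ) → ℂ := fun n k u => ((S n : ℂ))⁻¹ * cut J (F n) k u with hΨ
  have hΨr : ∀ n, Rl w (b (N + n)) J ν β k₀ (Ψ n) := fun n => rl_smul _ (hc n)
  have hΨn : ∀ n k u, ‖Ψ n k u‖ = (S n)⁻¹ * ‖cut J (F n) k u‖ := by
    intro n k u
    change ‖((S n : ℂ))⁻¹ * cut J (F n) k u‖ = _
    rw [norm_mul, norm_inv, Complex.norm_real, Real.norm_eq_abs, abs_of_pos (hSpos n)]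
  have hΨ1 : ∀ n, ∑ q ∈ I₀, ‖Ψ n q.1 q.2‖ = 1 := by
    intro n
    rw [Finset.sum_congr rfl fun q _ => hΨn n q.1 q.2, ← Finset.mul_sum]
    exact inv_mul_cancel₀ (hSpos n).ne'
  have hbd : ∀ (k : ℤ) (u : ι → ℤ), ∃ B : ℝ, ∀ n, ‖Ψ n k u‖ ≤ B := by
    intro k u
    by_cases hu : ∀ j, j ∉ J → 0 ≤ u j
    · obtain ⟨B, _, hB2⟩ := hB k u hu
      refine ⟨B * 1, fun n => ?_⟩
      refine hB2 (b (N + n)) (Ψ n) 1 (hN _ (Nat.le_add_right _ _)) (hΨr n) zero_le_one ?_
      intro q hq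
      rw [← hΨ1 n]
      exact Finset.single_le_sum (f := fun q => ‖Ψ n q.1 q.2‖) (fun q _ => norm_nonneg _) hq
    · refine ⟨0, fun n => ?_⟩
      rw [hΨn, cut_neg hu, norm_zero, mul_zero]
  -- the limit
  have hlim : ∀ (k : ℤ) (u : ι → ℤ), ∃ z : ℂ,
      Tendsto (fun n => Ψ n k u) (Filter.hyperfilter ℕ : Filter ℕ) (𝓝 z) := by
    intro k u
    obtain ⟨B, hB'⟩ := hbd k u
    exact exists_lim _ _ B hB'
  choose Φ hΦ using hlim
  have hbU : ∀ v, Tendsto (fun n => b (N + n) v) (Filter.hyperfilter ℕ : Filter ℕ)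
      (𝓝 (a v)) := by
    intro v
    have h1 : Tendsto (fun n => b (N + n) v) atTop (𝓝 (a v)) :=
      (hbv v).comp (tendsto_atTop_mono (fun n => Nat.le_add_left n N) tendsto_id)
    exact h1.mono_left (Nat.hyperfilter_le_atTop)
  refine ⟨Φ, ⟨?_, ?_, ?_⟩, ?_⟩
  · intro k u i hu
    refine tendsto_nhds_unique (l := (Filter.hyperfilter ℕ : Filter ℕ))
      (f := fun n => ∑ v, (w v i : ℂ) * (b (N + n) v * Ψ n (k + 1)
        (fun j => u j + w v j - if j = i then 1 else 0))) ?_ ?_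
    · exact tendsto_finsetSum _ fun v _ => tendsto_const_nhds.mul ((hbU v).mul (hΦ _ _))
    · have e : (fun n => ∑ v, (w v i : ℂ) * (b (N + n) v * Ψ n (k + 1)
          (fun j => u j + w v j - if j = i then 1 else 0))) =
          fun n => -((u i : ℂ) + (ν i : ℂ)) * Ψ n k (fun j => u j - if j = i then 1 else 0) := by
        funext n
        exact (hΨr n).1 k u i hu
      rw [e]
      exact tendsto_const_nhds.mul (hΦ _ _)
  · intro k u hu
    refine tendsto_nhds_unique (l := (Filter.hyperfilter ℕ : Filter ℕ))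
      (f := fun n => ∑ v, b (N + n) v * Ψ n (k + 1) (fun j => u j + w v j)) ?_ ?_
    · exact tendsto_finsetSum _ fun v _ => (hbU v).mul (hΦ _ _)
    · have e : (fun n => ∑ v, b (N + n) v * Ψ n (k + 1) (fun j => u j + w v j)) =
          fun n => ((β : ℂ) - k) * Ψ n k u := by
        funext n
        exact (hΨr n).2.1 k u hu
      rw [e]
      exact tendsto_const_nhds.mul (hΦ _ _)
  · intro k hk u hu
    refine tendsto_nhds_unique (hΦ k u) ?_
    have e : (fun n => Ψ n k u) = fun _ => 0 := by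
      funext n
      exact (hΨr n).2.2 k hk u hu
    rw [e]
    exact tendsto_const_nhds
  · have h1 : Tendsto (fun n => ∑ q ∈ I₀, ‖Ψ n q.1 q.2‖) (Filter.hyperfilter ℕ : Filter ℕ)
        (𝓝 (∑ q ∈ I₀, ‖Φ q.1 q.2‖)) := tendsto_finsetSum _ fun q _ => (hΦ _ _).norm
    have h2 : ∑ q ∈ I₀, ‖Φ q.1 q.2‖ = 1 := by
      refine tendsto_nhds_unique h1 ?_
      rw [show (fun n => ∑ q ∈ I₀, ‖Ψ n q.1 q.2‖) = fun _ => 1 from funext hΨ1]
      exact tendsto_const_nhds
    by_contra hcon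
    have h3 : ∑ q ∈ I₀, ‖Φ q.1 q.2‖ = 0 := by
      refine Finset.sum_eq_zero fun q hq => ?_
      by_contra hne
      exact hcon ⟨q.1, q.2, hI0 q hq, fun h0 => hne (by rw [h0, norm_zero])⟩
    rw [h2] at h3
    exact one_ne_zero h3

end Pool.Agent.Mono.NP
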