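import Pool.Agent.Work.Monodromy.Interface13

set_option autoImplicit false

namespace Pool.Agent.Mono.NP

open MvPolynomial Filter Topology

namespace TORAux

/-- `ℂˣ` is divisible -/
theorem baer : Module.Baer ℤ (Additive ℂˣ) := by
  haveI : DivisibleBy (Additive ℂˣ) ℤ := divisibleByOfSMulRightSurj _ _ (by
    intro n hn z
    have key : ∀ (k : ℕ), k ≠ 0 → ∀ z : ℂˣ, ∃ y : ℂˣ, y ^ k = z := by
      intro k hk z
      obtain ⟨y, hy⟩ := IsAlgClosed.exists_pow_nat_eq (z : ℂ) (Nat.pos_of_ne_zero hk)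
      have hy0 : y ≠ 0 := by
        rintro rfl
        rw [zero_pow hk] at hy
        exact z.ne_zero hy.symm
      exact ⟨Units.mk0 y hy0, Units.ext (by simpa using hy)⟩
    rcases Int.natAbs_eq n with h | h
    · obtain ⟨y, hy⟩ := key n.natAbs (Int.natAbs_ne_zero.mpr hn) z.toMul
      refine ⟨Additive.ofMul y, ?_⟩
      show n • Additive.ofMul y = z
      rw [h, ← ofMul_zpow, zpow_natCast, hy]
      rfl
    · obtain ⟨y, hy⟩ := key n.natAbs (Int.natAbs_ne_zero.mpr hn) (z.toMul)⁻¹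
      refine ⟨Additive.ofMul y, ?_⟩
      show n • Additive.ofMul y = z
      rw [h, ← ofMul_zpow, zpow_neg, zpow_natCast, hy, inv_inv]
      rfl)
  exact Module.Baer.of_divisible _

section

variable {ι κ : Type} [Fintype ι] [DecidableEq ι] [Fintype κ] [DecidableEq κ]
  (w : κ → ι → ℕ) (t : κ → ℂ)

theorem pn (H : ∀ m m' : κ → ℕ, ∑ v, m v = ∑ v, m' v →
      (∀ i, ∑ v, m v * w v i = ∑ v, m' v * w v i) → ∏ v, t v ^ m v = ∏ v, t v ^ m' v)
    (n : κ → ℤ) (h0 : ∑ v, n v = 0) (h1 : ∀ i, ∑ v, n v * (w v i : ℤ) = 0) :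
    ∏ v, t v ^ (n v).toNat = ∏ v, t v ^ (-n v).toNat := by
  have hd : ∀ v, (((n v).toNat : ℕ) : ℤ) - (((-n v).toNat : ℕ) : ℤ) = n v := by
    intro v; omega
  apply H
  · have : ((∑ v, (n v).toNat : ℕ) : ℤ) = ((∑ v, (-n v).toNat : ℕ) : ℤ) := by
      rw [← sub_eq_zero, Nat.cast_sum, Nat.cast_sum, ← Finset.sum_sub_distrib]
      rw [← h0]
      exact Finset.sum_congr rfl fun v _ => hd v
    exact_mod_cast this
  · intro i
    have : ((∑ v, (n v).toNat * w v i : ℕ) : ℤ) = ((∑ v, (-n v).toNat * w v i : ℕ) : ℤ) := by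
      rw [← sub_eq_zero, Nat.cast_sum, Nat.cast_sum, ← Finset.sum_sub_distrib]
      rw [← h1 i]
      refine Finset.sum_congr rfl fun v _ => ?_
      rw [Nat.cast_mul, Nat.cast_mul, ← sub_mul, hd v]
    exact_mod_cast this

theorem fce (H : ∀ m m' : κ → ℕ, ∑ v, m v = ∑ v, m' v →
      (∀ i, ∑ v, m v * w v i = ∑ v, m' v * w v i) → ∏ v, t v ^ m v = ∏ v, t v ^ m' v)
    (F : Finset κ) (hF : ∀ v, v ∈ F ↔ t v ≠ 0) : Fce w F := by
  intro m hm0 hm1 hpos v hv
  -- common denominator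
  set N : ℕ := ∏ v, (m v).den with hN
  have hN0 : (N : ℚ) ≠ 0 := by
    rw [hN, Nat.cast_prod]
    exact Finset.prod_ne_zero_iff.mpr fun v _ => by exact_mod_cast (m v).den_nz
  have hNpos : (0 : ℚ) < N := lt_of_le_of_ne (Nat.cast_nonneg _) (Ne.symm hN0)
  have hex : ∀ v, ∃ z : ℤ, (z : ℚ) = N * m v := by
    intro v
    have hdvd : (m v).den ∣ N := Finset.dvd_prod_of_mem _ (Finset.mem_univ v)
    obtain ⟨c, hc⟩ := hdvd
    refine ⟨c * (m v).num, ?_⟩
    have h2 : (m v) * (m v).den = (m v).num := Rat.mul_den_eq_num _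
    rw [hc]
    push_cast
    rw [← h2]
    ring
  choose n hn using hex
  have h0 : ∑ v, n v = 0 := by
    have : ((∑ v, n v : ℤ) : ℚ) = 0 := by
      push_cast
      simp_rw [hn]
      rw [← Finset.mul_sum, hm0, mul_zero]
    exact_mod_cast this
  have h1 : ∀ i, ∑ v, n v * (w v i : ℤ) = 0 := by
    intro i
    have : ((∑ v, n v * (w v i : ℤ) : ℤ) : ℚ) = 0 := by
      push_cast
      simp_rw [hn, mul_assoc]
      rw [← Finset.mul_sum, hm1 i, mul_zero]
    exact_mod_cast this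
  have hq : ∏ v, t v ^ (-n v).toNat ≠ 0 := by
    rw [Finset.prod_ne_zero_iff]
    intro v _
    by_cases hvF : v ∈ F
    · exact pow_ne_zero _ ((hF v).1 hvF)
    · have hm := hpos v hvF
      have : (0 : ℚ) ≤ n v := by rw [hn]; positivity
      have hnv : 0 ≤ n v := by exact_mod_cast this
      have : (-n v).toNat = 0 := by omega
      rw [this, pow_zero]
      exact one_ne_zero
  have hp : ∏ v, t v ^ (n v).toNat ≠ 0 := by
    rw [pn w t H n h0 h1]
    exact hq
  rw [Finset.prod_ne_zero_iff] at hp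
  have htv : t v = 0 := by
    by_contra h
    exact hv ((hF v).2 h)
  have h3 := hp v (Finset.mem_univ v)
  rw [htv] at h3
  have h4 : (n v).toNat = 0 := by
    by_contra h
    exact h3 (zero_pow h)
  have h5 : (0 : ℚ) ≤ n v := by rw [hn]; exact mul_nonneg hNpos.le (hpos v hv)
  have h6 : 0 ≤ n v := by exact_mod_cast h5
  have h7 : n v = 0 := by omega
  have h8 := hn v
  rw [h7] at h8
  push_cast at h8
  rcases mul_eq_zero.mp h8.symm with h | h
  · exact absurd h hN0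
  · exact h

/-- integral combinations of the exponents of `F` -/
noncomputable def Lm (F : Finset κ) : (F → ℤ) →ₗ[ℤ] ((ι → ℤ) × ℤ) :=
  LinearMap.prod
    (LinearMap.pi fun i => ∑ v : F, (w v i : ℤ) • (LinearMap.proj v : (F → ℤ) →ₗ[ℤ] ℤ))
    (∑ v : F, (LinearMap.proj v : (F → ℤ) →ₗ[ℤ] ℤ))

/-- the character -/
noncomputable def gm (F : Finset κ) (hF : ∀ v, v ∈ F ↔ t v ≠ 0) :
    (F → ℤ) →ₗ[ℤ] Additive ℂˣ :=
  ∑ v : F, LinearMap.toSpanSingleton ℤ (Additive ℂˣ)
    (Additive.ofMul (Units.mk0 (t v) ((hF v).1 v.2))) ∘ₗ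
      (LinearMap.proj v : (F → ℤ) →ₗ[ℤ] ℤ)

theorem gm_apply (F : Finset κ) (hF : ∀ v, v ∈ F ↔ t v ≠ 0) (n : F → ℤ) :
    (((gm t F hF n).toMul : ℂˣ) : ℂ) = ∏ v : F, t v ^ n v := by
  rw [gm, LinearMap.sum_apply, toMul_sum, Units.coe_prod]
  refine Finset.prod_congr rfl fun v _ => ?_
  rw [LinearMap.comp_apply, LinearMap.toSpanSingleton_apply, LinearMap.proj_apply, toMul_zsmul,
    toMul_ofMul, Units.val_zpow_eq_zpow_val, Units.val_mk0]

theorem Lm_fst (F : Finset κ) (n : F → ℤ) (i : ι) :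
    (Lm w F n).1 i = ∑ v : F, (w v i : ℤ) * n v := by
  simp [Lm, LinearMap.prod_apply, LinearMap.pi_apply, LinearMap.sum_apply]

theorem Lm_snd (F : Finset κ) (n : F → ℤ) :
    (Lm w F n).2 = ∑ v : F, n v := by
  simp [Lm, LinearMap.prod_apply, LinearMap.sum_apply]

theorem ker_le (H : ∀ m m' : κ → ℕ, ∑ v, m v = ∑ v, m' v →
      (∀ i, ∑ v, m v * w v i = ∑ v, m' v * w v i) → ∏ v, t v ^ m v = ∏ v, t v ^ m' v)
    (F : Finset κ) (hF : ∀ v, v ∈ F ↔ t v ≠ 0) :
    LinearMap.ker (Lm w F) ≤ LinearMap.ker (gm t F hF) := by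
  intro n hn
  rw [LinearMap.mem_ker] at hn ⊢
  -- extend by zero
  set n' : κ → ℤ := fun v => if h : v ∈ F then n ⟨v, h⟩ else 0 with hn'
  have hval : ∀ v : F, n' v = n v := by
    intro v
    simp [hn']
  have hout : ∀ v, v ∉ F → n' v = 0 := by
    intro v hv
    simp [hn', hv]
  have hsum : ∀ g : κ → ℤ, ∑ v, n' v * g v = ∑ v : F, n v * g v := by
    intro g
    rw [← Finset.sum_subset (Finset.subset_univ F)
      (fun v _ hv => by rw [hout v hv, zero_mul]), ← Finset.sum_coe_sort F]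
    exact Finset.sum_congr rfl fun v _ => by rw [hval]
  have h0 : ∑ v, n' v = 0 := by
    have h := hsum fun _ => 1
    simp only [mul_one] at h
    rw [h, ← Lm_snd w F n, hn]
    rfl
  have h1 : ∀ i, ∑ v, n' v * (w v i : ℤ) = 0 := by
    intro i
    rw [hsum fun v => (w v i : ℤ)]
    have h := Lm_fst w F n i
    rw [hn] at h
    have h' : (0 : ℤ) = ∑ v : F, (w v i : ℤ) * n v := h
    rw [h']
    exact Finset.sum_congr rfl fun v _ => mul_comm _ _
  have hp := pn w t H n' h0 h1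
  -- the product over `F`
  have hprod : ∀ f : κ → ℤ, (∀ v, v ∉ F → f v = 0) →
      ∏ v, t v ^ (f v).toNat = ∏ v : F, t v ^ (f v).toNat := by
    intro f hf
    rw [← Finset.prod_subset (Finset.subset_univ F)
      (fun v _ hv => by rw [hf v hv]; simp), ← Finset.prod_coe_sort F]
  rw [hprod n' hout, hprod (fun v => -n' v) (fun v hv => by simp [hout v hv])] at hp
  have key : (((gm t F hF n).toMul : ℂˣ) : ℂ) = 1 := by
    rw [gm_apply]
    have hne : ∏ v : F, t v ^ (-n' v).toNat ≠ 0 := by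
      rw [Finset.prod_ne_zero_iff]
      intro v _
      exact pow_ne_zero _ ((hF v).1 v.2)
    have h2 : ∏ v : F, t v ^ n v =
        (∏ v : F, t v ^ (n' v).toNat) / ∏ v : F, t v ^ (-n' v).toNat := by
      rw [← Finset.prod_div_distrib]
      refine Finset.prod_congr rfl fun v _ => ?_
      have htv : t (v : κ) ≠ 0 := (hF v).1 v.2
      rw [hval v, ← zpow_natCast, ← zpow_natCast, ← zpow_sub₀ htv]
      congr 1
      omega
    rw [h2, hp, div_self hne]
  have : (gm t F hF n).toMul = 1 := Units.ext key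
  exact this

end

end TORAux

open TORAux in
theorem stmt_TOR : Stmt_TOR := by
  intro ι κ _ _ _ _ w t H F hF
  refine ⟨fce w t H F hF, ?_⟩
  classical
  set K := LinearMap.ker (Lm w F) with hK
  -- the character on the range
  let g' : LinearMap.range (Lm w F) →ₗ[ℤ] Additive ℂˣ :=
    (K.liftQ (gm t F hF) (ker_le w t H F hF)) ∘ₗ
      (Lm w F).quotKerEquivRange.symm.toLinearMap
  have hg' : ∀ n : F → ℤ, g' ⟨Lm w F n, LinearMap.mem_range_self _ _⟩ = gm t F hF n := by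
    intro n
    show (K.liftQ (gm t F hF) (ker_le w t H F hF))
      ((Lm w F).quotKerEquivRange.symm ⟨Lm w F n, LinearMap.mem_range_self _ _⟩) = _
    rw [LinearMap.quotKerEquivRange_symm_apply_image]
    rfl
  obtain ⟨φ, hφ⟩ := baer.extension_property (LinearMap.range (Lm w F)).subtype
    (Submodule.subtype_injective _) g'
  have hφ' : ∀ n : F → ℤ, φ (Lm w F n) = gm t F hF n := by
    intro n
    rw [← hg' n, ← hφ]
    rfl
  refine ⟨fun i => (((φ (Pi.single i 1, 0)).toMul : ℂˣ) : ℂ), (((φ (0, 1)).toMul : ℂˣ) : ℂ),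
    fun i => Units.ne_zero _, Units.ne_zero _, ?_⟩
  intro v hv
  have h1 := hφ' (Pi.single ⟨v, hv⟩ 1)
  have h2 : (((gm t F hF (Pi.single ⟨v, hv⟩ 1)).toMul : ℂˣ) : ℂ) = t v := by
    rw [gm_apply, Finset.prod_eq_single ⟨v, hv⟩]
    · simp
    · intro b _ hb
      rw [Pi.single_eq_of_ne hb, zpow_zero]
    · intro h
      exact absurd (Finset.mem_univ _) h
  have h3 : Lm w F (Pi.single ⟨v, hv⟩ 1) =
      (0, 1) + ∑ i, (w v i) • ((Pi.single i 1, 0) : (ι → ℤ) × ℤ) := by
    apply Prod.ext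
    · funext i
      rw [Lm_fst, Finset.sum_eq_single ⟨v, hv⟩]
      · rw [Prod.fst_add, Prod.fst_sum]
        simp [Finset.sum_apply, Pi.single_apply]
      · intro b _ hb
        rw [Pi.single_eq_of_ne hb, mul_zero]
      · intro h
        exact absurd (Finset.mem_univ _) h
    · rw [Lm_snd, Prod.snd_add, Prod.snd_sum]
      simp
  rw [← h2, ← h1, h3, map_add, map_sum, toMul_add, toMul_sum, Units.val_mul, Units.coe_prod]
  congr 1
  refine Finset.prod_congr rfl fun i _ => ?_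
  rw [map_nsmul, toMul_nsmul, Units.val_pow_eq_pow_val]

end Pool.Agent.Mono.NP
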