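import Pool.Agent.Work.Monodromy.Interface13

/-!
# Phase 13, block UBD: the uniform bound (helper67)
-/

set_option autoImplicit false

namespace Pool.Agent.Mono.NP

open MvPolynomial

namespace UBDAux

variable {ι κ : Type}

/-- the value at a point is bounded by a multiple of `S` -/
def BdP (G : (κ → ℂ) → (ℤ → (ι → ℤ) → ℂ) → ℝ → Prop) (k : ℤ) (u : ι → ℤ) : Prop :=
  ∃ B : ℝ, 0 ≤ B ∧ ∀ b Φ S, G b Φ S → ‖Φ k u‖ ≤ B * S

theorem unif (G : (κ → ℂ) → (ℤ → (ι → ℤ) → ℂ) → ℝ → Prop)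
    (hG : ∀ b Φ S, G b Φ S → 0 ≤ S) (T : Finset (ℤ × (ι → ℤ)))
    (h : ∀ p ∈ T, BdP G p.1 p.2) :
    ∃ B : ℝ, 0 ≤ B ∧ ∀ b Φ S, G b Φ S → ∀ p ∈ T, ‖Φ p.1 p.2‖ ≤ B * S := by
  classical
  induction T using Finset.induction_on with
  | empty => exact ⟨0, le_rfl, fun _ _ _ _ p hp => absurd hp (Finset.notMem_empty p)⟩
  | insert p T hp ih =>
    obtain ⟨B₁, hB₁, h₁⟩ := ih (fun q hq => h q (Finset.mem_insert_of_mem hq))
    obtain ⟨B₂, hB₂, h₂⟩ := h p (Finset.mem_insert_self _ _)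
    refine ⟨max B₁ B₂, le_max_of_le_left hB₁, fun b Φ S hS q hq => ?_⟩
    have hS0 := hG b Φ S hS
    rcases Finset.mem_insert.1 hq with rfl | hq
    · exact (h₂ b Φ S hS).trans (mul_le_mul_of_nonneg_right (le_max_right _ _) hS0)
    · exact (h₁ b Φ S hS q hq).trans (mul_le_mul_of_nonneg_right (le_max_left _ _) hS0)

variable [Fintype ι] [DecidableEq ι] [Fintype κ]

/-- the linear form at a point -/
def evl (l : ι ⊕ Unit → ℤ) (k : ℤ) (u : ι → ℤ) : ℤ :=
  ∑ i, l (Sum.inl i) * u i + l (Sum.inr ()) * k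

/-- the constant of a linear form -/
def cl (l : ι ⊕ Unit → ℤ) (ν : ι → ℚ) (β : ℚ) : ℚ :=
  ∑ i, (l (Sum.inl i) : ℚ) * (1 + ν i) - l (Sum.inr ()) * β

omit [DecidableEq ι] in
theorem ev_add (l : ι ⊕ Unit → ℤ) (k k' : ℤ) (u u' : ι → ℤ) :
    evl l (k + k') (fun j => u j + u' j) = evl l k u + evl l k' u' := by
  unfold evl
  simp only [mul_add, Finset.sum_add_distrib]
  ring

theorem rel (w : κ → ι → ℕ) (b : κ → ℂ) (J : Finset ι) (ν : ι → ℚ) (β : ℚ) (k₀ : ℤ)
    (Φ : ℤ → (ι → ℤ) → ℂ) (hR : Rl w b J ν β k₀ Φ) (l : ι ⊕ Unit → ℤ) (k : ℤ) (u : ι → ℤ)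
    (hu : ∀ j, j ∉ J → 0 ≤ u j) :
    ∑ v, ((evl l 1 (fun i => (w v i : ℤ)) : ℤ) : ℂ) *
        (b v * Φ (k + 1) (fun j => u j + w v j)) =
      -(((evl l k u : ℤ) : ℂ) + ((cl l ν β : ℚ) : ℂ)) * Φ k u := by
  have h1 : ∀ i, ∑ v, (w v i : ℂ) * (b v * Φ (k + 1) (fun j => u j + w v j)) =
      -((u i : ℂ) + 1 + (ν i : ℂ)) * Φ k u := by
    intro i
    have h2 := hR.1 k (fun j => u j + if j = i then 1 else 0) i (fun j hj => by
      have := hu j hj
      split_ifs <;> omega)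
    have e1 : ∀ v, (fun j => (u j + if j = i then (1 : ℤ) else 0) + (w v j : ℤ) -
        if j = i then 1 else 0) = fun j => u j + w v j := by
      intro v
      funext j
      ring
    have e2 : (fun j => (u j + if j = i then (1 : ℤ) else 0) - if j = i then 1 else 0) = u := by
      funext j
      ring
    simp only [e1, e2, if_true] at h2
    rw [h2]
    push_cast
    ring
  have h2 := hR.2.1 k u hu
  have h3 : ∀ v, ((evl l 1 (fun i => (w v i : ℤ)) : ℤ) : ℂ) *
        (b v * Φ (k + 1) (fun j => u j + w v j)) =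
      (∑ i, (l (Sum.inl i) : ℂ) * ((w v i : ℂ) * (b v * Φ (k + 1) (fun j => u j + w v j)))) +
        (l (Sum.inr ()) : ℂ) * (b v * Φ (k + 1) (fun j => u j + w v j)) := by
    intro v
    unfold evl
    push_cast
    rw [add_mul, Finset.sum_mul]
    congr 1
    · refine Finset.sum_congr rfl fun i _ => ?_
      ring
    · ring
  simp only [h3]
  rw [Finset.sum_add_distrib, Finset.sum_comm, ← Finset.mul_sum, h2]
  simp only [← Finset.mul_sum, h1]
  unfold evl cl
  push_cast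
  have h4 : ∑ i, (l (Sum.inl i) : ℂ) * (-((u i : ℂ) + 1 + (ν i : ℂ)) * Φ k u) =
      -(∑ i, (l (Sum.inl i) : ℂ) * (u i : ℂ) + ∑ i, (l (Sum.inl i) : ℂ) * (1 + (ν i : ℂ))) *
        Φ k u := by
    rw [← Finset.sum_add_distrib, neg_mul, Finset.sum_mul, ← Finset.sum_neg_distrib]
    refine Finset.sum_congr rfl fun i _ => ?_
    ring
  rw [h4]
  ring

/-- the points of the orbits -/
noncomputable def pk (k : ℤ) (m : κ →₀ ℕ) : ℤ := k + (m.degree : ℕ)

/-- the points of the orbits -/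
def pu (w : κ → ι → ℕ) (u : ι → ℤ) (m : κ →₀ ℕ) : ι → ℤ :=
  fun j => u j + ∑ v, (m v : ℤ) * w v j

omit [Fintype κ] in
theorem pk_add (k : ℤ) (m m' : κ →₀ ℕ) : pk (pk k m) m' = pk k (m + m') := by
  unfold pk
  rw [map_add]
  push_cast
  ring

omit [Fintype ι] [DecidableEq ι] in
theorem pu_add (w : κ → ι → ℕ) (u : ι → ℤ) (m m' : κ →₀ ℕ) :
    pu w (pu w u m) m' = pu w u (m + m') := by
  unfold pu
  funext j
  simp only [Finsupp.add_apply, Nat.cast_add, add_mul, Finset.sum_add_distrib]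
  ring

omit [Fintype ι] [DecidableEq ι] in
theorem pu_allowed (w : κ → ι → ℕ) (J : Finset ι) (u : ι → ℤ) (m : κ →₀ ℕ)
    (hu : ∀ j, j ∉ J → 0 ≤ u j) : ∀ j, j ∉ J → 0 ≤ pu w u m j := by
  intro j hj
  unfold pu
  have := hu j hj
  positivity

/-- the good functionals -/
def GG (w : κ → ι → ℕ) (a : κ → ℂ) (J : Finset ι) (ν : ι → ℚ) (β : ℚ) (k₀ : ℤ) (δ : ℝ)
    (I₀ : Finset (ℤ × (ι → ℤ))) (b : κ → ℂ) (Φ : ℤ → (ι → ℤ) → ℂ) (S : ℝ) : Prop :=
  (∀ v, ‖b v - a v‖ ≤ δ) ∧ Rl w b J ν β k₀ Φ ∧ 0 ≤ S ∧ ∀ q ∈ I₀, ‖Φ q.1 q.2‖ ≤ S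

/-- the values on an orbit -/
theorem orbit (w : κ → ι → ℕ) (a : κ → ℂ) (J : Finset ι) (ν : ι → ℚ) (β : ℚ) (k₀ : ℤ)
    (d : ℕ) (δ₀ δ : ℝ) (hδ : δ ≤ δ₀) (hd : 1 ≤ d)
    (hABS : ∀ (k : ℤ) (u : ι → ℤ), (∀ j, j ∉ J → 0 ≤ u j) → ∃ B : ℝ, 0 ≤ B ∧
        ∀ (b : κ → ℂ) (Φ : ℤ → (ι → ℤ) → ℂ) (S : ℝ), (∀ v, ‖b v - a v‖ ≤ δ₀) →
          Rl w b J ν β k₀ Φ → 0 ≤ S →
          (∀ m : κ →₀ ℕ, m.degree = d - 1 →
            ‖Φ (k + (d - 1 : ℕ)) (fun j => u j + ∑ v, (m v : ℤ) * w v j)‖ ≤ S) →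
          ∀ m : κ →₀ ℕ, m.degree = d →
            ‖Φ (k + (d : ℕ)) (fun j => u j + ∑ v, (m v : ℤ) * w v j)‖ ≤ B * S)
    (I₀ : Finset (ℤ × (ι → ℤ))) (k : ℤ) (u : ι → ℤ) (hu : ∀ j, j ∉ J → 0 ≤ u j)
    (hI₀ : ∀ m : κ →₀ ℕ, m.degree < d → (pk k m, pu w u m) ∈ I₀) :
    ∀ (n : ℕ) (m : κ →₀ ℕ), m.degree = n →
      BdP (GG w a J ν β k₀ δ I₀) (pk k m) (pu w u m) := by
  classical
  intro n
  induction n using Nat.strong_induction_on with
  | _ n ih =>
    intro m hm
    by_cases hn : n < d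
    · refine ⟨1, zero_le_one, fun b Φ S h => ?_⟩
      rw [one_mul]
      exact h.2.2.2 _ (hI₀ m (by rw [hm]; exact hn))
    · push Not at hn
      obtain ⟨m₁, hle, hm₁⟩ := Finsupp.exists_le_degree_eq m d (by rw [hm]; exact hn)
      obtain ⟨m₂, rfl⟩ := le_iff_exists_add.1 hle
      rw [map_add, hm₁] at hm
      set T : Finset (ℤ × (ι → ℤ)) := (Finsupp.finite_of_degree_eq (σ := κ) (d - 1)).toFinset.image
        (fun m' => (pk k (m₂ + m'), pu w u (m₂ + m'))) with hT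
      obtain ⟨B₁, hB₁, h₁⟩ := unif (GG w a J ν β k₀ δ I₀) (fun _ _ _ h => h.2.2.1) T (by
        intro p hp
        rw [hT, Finset.mem_image] at hp
        obtain ⟨m', hm', rfl⟩ := hp
        have hm'' : m'.degree = d - 1 := by
          have h0 := (Set.Finite.mem_toFinset (Finsupp.finite_of_degree_eq (σ := κ) (d - 1))).1 hm'
          exact h0
        exact ih (m₂ + m').degree (by rw [map_add, hm'']; omega) (m₂ + m') rfl)
      obtain ⟨B₂, hB₂, h₂⟩ := hABS (pk k m₂) (pu w u m₂) (pu_allowed w J u m₂ hu)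
      refine ⟨B₂ * B₁, mul_nonneg hB₂ hB₁, fun b Φ S h => ?_⟩
      have h3 := h₂ b Φ (B₁ * S) (fun v => (h.1 v).trans hδ) h.2.1
        (mul_nonneg hB₁ h.2.2.1) (fun m' hm' => by
          have h4 := h₁ b Φ S h (pk k (m₂ + m'), pu w u (m₂ + m')) (by
            rw [hT, Finset.mem_image]
            exact ⟨m', (Set.Finite.mem_toFinset _).2 hm', rfl⟩)
          simp only at h4
          rw [← pk_add, ← pu_add] at h4
          unfold pk at h4
          rw [hm'] at h4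
          exact h4) m₁ hm₁
      have h5 : pk k (m₁ + m₂) = pk k m₂ + (d : ℕ) := by
        rw [add_comm m₁, ← pk_add, pk, hm₁]
      have h6 : pu w u (m₁ + m₂) = fun j => pu w u m₂ j + ∑ v, (m₁ v : ℤ) * w v j := by
        rw [add_comm m₁, ← pu_add]
        rfl
      rw [h5, h6, mul_assoc]
      exact h3

/-- coordinates -/
def ej (j : ι) : ι ⊕ Unit → ℤ := Sum.elim (Pi.single j 1) (fun _ => 0)

omit [DecidableEq ι] in
theorem sum_ev (l y : ι ⊕ Unit → ℤ) :
    ∑ t, l t * y t = evl l (y (Sum.inr ())) (fun i => y (Sum.inl i)) := by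
  unfold evl
  rw [Fintype.sum_sum_type]
  simp

theorem ev_ej (j : ι) (k : ℤ) (u : ι → ℤ) : evl (ej j) k u = u j := by
  unfold evl ej
  simp [Pi.single_apply]

/-- the vectors `(w_v, 1)` -/
def Wh (w : κ → ι → ℕ) (v : κ) : ι ⊕ Unit → ℤ := Sum.elim (fun i => (w v i : ℤ)) (fun _ => 1)

omit [Fintype κ] in
theorem exc (L : Finset (ι ⊕ Unit → ℤ)) (ν : ι → ℚ) (β : ℚ) :
    ∃ c : ℤ, ∀ l ∈ L, |cl l ν β| + 1 ≤ (c : ℚ) := by
  classical
  obtain ⟨c, hc⟩ := Finset.exists_le (L.image fun l => ⌈|cl l ν β|⌉ + 1)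
  refine ⟨c, fun l hl => ?_⟩
  have h1 := hc _ (Finset.mem_image_of_mem _ hl)
  have h2 : ((⌈|cl l ν β|⌉ + 1 : ℤ) : ℚ) ≤ (c : ℚ) := by exact_mod_cast h1
  push_cast at h2
  have h3 := Int.le_ceil (|cl l ν β|)
  linarith

end UBDAux

open UBDAux

theorem stmt_UBD (hMW : Stmt_MW) (hGOR : Stmt_GOR) (hABS : Stmt_ABS) : Stmt_UBD := by
  classical
  intro ι κ _ _ _ _ w a ha J ν β k₀
  obtain ⟨d, δ₀, hd, hδ₀, hA⟩ := hABS ι κ w a ha
  obtain ⟨L, hL0, hLc⟩ := hMW (ι ⊕ Unit) κ (Wh w)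
  obtain ⟨c, hc⟩ := exc L ν β
  have hL0' : ∀ l ∈ L, ∀ v, 0 ≤ evl l 1 (fun i => (w v i : ℤ)) := by
    intro l hl v
    have := hL0 l hl v
    rw [sum_ev] at this
    exact this
  set L' : Finset (ι ⊕ Unit → ℤ) := L ∪ (Finset.univ.filter (fun j => j ∉ J)).image ej with hL'
  set c' : (ι ⊕ Unit → ℤ) → ℤ := fun l => if ∃ j, j ∉ J ∧ l = ej j then 0 else -c with hc'
  obtain ⟨M, hM1, hM2⟩ := hGOR (ι ⊕ Unit) κ (Wh w) L' c' (by
      intro l hl v
      rw [sum_ev]
      rcases Finset.mem_union.1 hl with hl | hl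
      · exact hL0' l hl v
      · obtain ⟨j, -, rfl⟩ := Finset.mem_image.1 hl
        rw [ev_ej]
        exact Int.natCast_nonneg _) (fun y hy => hLc y fun l hl =>
          hy l (Finset.mem_union_left _ hl))
  have hMa : ∀ r ∈ M, ∀ j, j ∉ J → 0 ≤ r (Sum.inl j) := by
    intro r hr j hj
    have h1 := hM1 r hr (ej j) (Finset.mem_union_right _
      (Finset.mem_image_of_mem _ (Finset.mem_filter.2 ⟨Finset.mem_univ _, hj⟩)))
    rw [sum_ev, ev_ej, hc'] at h1
    simp only at h1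
    rw [if_pos ⟨j, hj, rfl⟩] at h1
    exact h1
  set I₀ : Finset (ℤ × (ι → ℤ)) := (M ×ˢ (Finsupp.finite_of_degree_lt (σ := κ) d).toFinset).image
    (fun q => (pk (q.1 (Sum.inr ())) q.2, pu w (fun i => q.1 (Sum.inl i)) q.2)) with hI₀
  set δ : ℝ := min δ₀ 1 with hδ
  have hGS : ∀ b Φ S, GG w a J ν β k₀ δ I₀ b Φ S → 0 ≤ S := fun _ _ _ h => h.2.2.1
  have claim1 : ∀ r ∈ M, ∀ m : κ →₀ ℕ, BdP (GG w a J ν β k₀ δ I₀) (pk (r (Sum.inr ())) m)
      (pu w (fun i => r (Sum.inl i)) m) := by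
    intro r hr m
    refine orbit w a J ν β k₀ d δ₀ δ (min_le_left _ _) hd (hA J ν β k₀) I₀ _ _ (hMa r hr) ?_
      m.degree m rfl
    intro m' hm'
    rw [hI₀, Finset.mem_image]
    exact ⟨(r, m'), Finset.mem_product.2 ⟨hr, (Set.Finite.mem_toFinset _).2 hm'⟩, rfl⟩
  set μ : ℤ → (ι → ℤ) → ℕ := fun k u => ∑ l ∈ L, (-c - evl l k u).toNat with hμ
  have claim2 : ∀ (n : ℕ) (k : ℤ) (u : ι → ℤ), (∀ j, j ∉ J → 0 ≤ u j) → μ k u = n →
      BdP (GG w a J ν β k₀ δ I₀) k u := by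
    intro n
    induction n using Nat.strong_induction_on with
    | _ n ih =>
      intro k u hu hn
      by_cases hR : ∀ l ∈ L, -c ≤ evl l k u
      · obtain ⟨r, hr, m, hm⟩ := hM2 (Sum.elim u (fun _ => k)) (by
          intro l hl
          rw [sum_ev, hc']
          simp only [Sum.elim_inr, Sum.elim_inl]
          split_ifs with h
          · obtain ⟨j, hj, rfl⟩ := h
            rw [ev_ej]
            exact hu j hj
          · rcases Finset.mem_union.1 hl with hl | hl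
            · exact hR l hl
            · exfalso
              obtain ⟨j, hj, rfl⟩ := Finset.mem_image.1 hl
              exact h ⟨j, (Finset.mem_filter.1 hj).2, rfl⟩)
        have h1 := claim1 r hr (Finsupp.equivFunOnFinite.symm m)
        have e1 : pk (r (Sum.inr ())) (Finsupp.equivFunOnFinite.symm m) = k := by
          have h2 := hm (Sum.inr ())
          simp only [Sum.elim_inr, Wh, mul_one] at h2
          rw [h2, pk, Finsupp.degree_eq_sum]
          push_cast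
          rfl
        have e2 : pu w (fun i => r (Sum.inl i)) (Finsupp.equivFunOnFinite.symm m) = u := by
          funext i
          have h2 := hm (Sum.inl i)
          simp only [Sum.elim_inl, Wh] at h2
          rw [h2]
          rfl
        rw [e1, e2] at h1
        exact h1
      · push Not at hR
        obtain ⟨l, hl, hlt⟩ := hR
        set T : Finset (ℤ × (ι → ℤ)) := (Finset.univ.filter
          (fun v => 0 < evl l 1 (fun i => (w v i : ℤ)))).image
          (fun v => (k + 1, fun j => u j + w v j)) with hT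
        obtain ⟨B₁, hB₁, h₁⟩ := unif (GG w a J ν β k₀ δ I₀) hGS T (by
          intro p hp
          rw [hT, Finset.mem_image] at hp
          obtain ⟨v, hv, rfl⟩ := hp
          have hv' := (Finset.mem_filter.1 hv).2
          have hadd : ∀ l', evl l' (k + 1) (fun j => u j + w v j) =
              evl l' k u + evl l' 1 (fun i => (w v i : ℤ)) := fun l' => ev_add l' k 1 u _
          refine ih (μ (k + 1) (fun j => u j + w v j)) ?_ _ _ ?_ rfl
          · rw [← hn, hμ]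
            refine Finset.sum_lt_sum (fun l' hl' => ?_) ⟨l, hl, ?_⟩
            · rw [hadd]
              have := hL0' l' hl' v
              omega
            · rw [hadd]
              omega
          · intro j hj
            have := hu j hj
            positivity)
        have hB0 : 0 ≤ ∑ v, (evl l 1 (fun i => (w v i : ℤ)) : ℝ) * ((‖a v‖ + 1) * B₁) := by
          refine Finset.sum_nonneg fun v _ => mul_nonneg ?_ (by positivity)
          exact_mod_cast hL0' l hl v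
        refine ⟨_, hB0, fun b Φ S h => ?_⟩
        have hS : 0 ≤ S := h.2.2.1
        have h2 := rel w b J ν β k₀ Φ h.2.1 l k u hu
        have h3 : 1 ≤ ‖-(((evl l k u : ℤ) : ℂ) + ((cl l ν β : ℚ) : ℂ))‖ := by
          have e1 : (((evl l k u : ℤ) : ℂ) + ((cl l ν β : ℚ) : ℂ)) =
              ((((evl l k u : ℚ) + cl l ν β : ℚ) : ℝ) : ℂ) := by
            push_cast
            rfl
          rw [norm_neg, e1, Complex.norm_real, Real.norm_eq_abs, ← Rat.cast_abs]
          have h4 := hc l hl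
          have h5 : ((evl l k u : ℤ) : ℚ) < -(c : ℚ) := by exact_mod_cast hlt
          have h6 := le_abs_self (cl l ν β)
          have h7 : (1 : ℚ) ≤ |(evl l k u : ℚ) + cl l ν β| := by
            rw [abs_of_nonpos (by linarith)]
            linarith
          exact_mod_cast h7
        calc ‖Φ k u‖ ≤ ‖-(((evl l k u : ℤ) : ℂ) + ((cl l ν β : ℚ) : ℂ))‖ * ‖Φ k u‖ :=
              le_mul_of_one_le_left (norm_nonneg _) h3
          _ = ‖∑ v, ((evl l 1 (fun i => (w v i : ℤ)) : ℤ) : ℂ) *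
                (b v * Φ (k + 1) (fun j => u j + w v j))‖ := by
              rw [h2, norm_mul]
          _ ≤ ∑ v, ‖((evl l 1 (fun i => (w v i : ℤ)) : ℤ) : ℂ) *
                (b v * Φ (k + 1) (fun j => u j + w v j))‖ := norm_sum_le _ _
          _ ≤ ∑ v, (evl l 1 (fun i => (w v i : ℤ)) : ℝ) * ((‖a v‖ + 1) * B₁) * S := by
              refine Finset.sum_le_sum fun v _ => ?_
              rw [norm_mul, norm_mul, Complex.norm_intCast]
              rcases (hL0' l hl v).eq_or_lt with h8 | h8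
              · rw [← h8]
                simp
              · have h9 : |((evl l 1 (fun i => (w v i : ℤ)) : ℤ) : ℝ)| =
                    ((evl l 1 (fun i => (w v i : ℤ)) : ℤ) : ℝ) :=
                  abs_of_nonneg (by exact_mod_cast hL0' l hl v)
                rw [h9, mul_assoc, mul_assoc]
                refine mul_le_mul_of_nonneg_left ?_ (by exact_mod_cast hL0' l hl v)
                have h10 : ‖b v‖ ≤ ‖a v‖ + 1 := by
                  have h11 := (h.1 v).trans (min_le_right δ₀ 1)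
                  have h12 : ‖b v‖ ≤ ‖a v‖ + ‖b v - a v‖ := by
                    have := norm_add_le (a v) (b v - a v)
                    rwa [add_sub_cancel] at this
                  linarith
                have h13 := h₁ b Φ S h (k + 1, fun j => u j + w v j) (by
                  rw [hT, Finset.mem_image]
                  exact ⟨v, Finset.mem_filter.2 ⟨Finset.mem_univ _, h8⟩, rfl⟩)
                exact mul_le_mul h10 h13 (norm_nonneg _) (by positivity)
          _ = (∑ v, (evl l 1 (fun i => (w v i : ℤ)) : ℝ) * ((‖a v‖ + 1) * B₁)) * S := by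
              rw [Finset.sum_mul]
  refine ⟨I₀, δ, lt_min hδ₀ one_pos, ?_, ?_⟩
  · intro q hq
    rw [hI₀, Finset.mem_image] at hq
    obtain ⟨⟨r, m⟩, hrm, rfl⟩ := hq
    exact pu_allowed w J _ m (hMa r (Finset.mem_product.1 hrm).1)
  · intro k u hu
    obtain ⟨B, hB, h⟩ := claim2 (μ k u) k u hu rfl
    exact ⟨B, hB, fun b Φ S h1 h2 h3 h4 => h b Φ S ⟨h1, h2, h3, h4⟩⟩

end Pool.Agent.Mono.NP
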