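import Pool.Agent.Work.Monodromy12.PartI12
import Pool.Agent.Work.Monodromy12.PartK12
import Pool.Agent.Work.Monodromy13.GNR13
import Pool.Agent.Work.Monodromy13.MW13
import Pool.Agent.Work.Monodromy13.GOR13
import Pool.Agent.Work.Monodromy13.TOR13
import Pool.Agent.Work.Monodromy13.NUL13
import Pool.Agent.Work.Monodromy13.ABS13
import Pool.Agent.Work.Monodromy13.UBD13
import Pool.Agent.Work.Monodromy13.SEQ13
import Pool.Agent.Work.Monodromy13.SPEC13
import Pool.Agent.Work.Monodromy13.III13
import Pool.Agent.Work.Monodromy13.KF13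
import Pool.Agent.Work.Monodromy13.KW13
import Pool.Agent.Work.Monodromy13.LIMA13
import Pool.Agent.Work.Monodromy13.I13
import Pool.Agent.Work.Monodromy13.FACE13
import Pool.Agent.Work.Monodromy13.Final13

/-!
# Phase 13, assembly: nondegenerate polynomials (helper17)
-/

set_option autoImplicit false

namespace Pool.Agent.Mono.NP

open MvPolynomial

/-- part I for generic coefficients -/
theorem part_I : Stmt_I := part_I_of_K part_K

theorem full_KF13 : Stmt_KF13 := stmt_KF13 stmt_K13 stmt_ADB stmt_TORM stmt_TORC full_VOLB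

theorem full_KW13 : Stmt_KW13 := stmt_KW13 full_KF13 (stmt_PYRC stmt_CELI)

/-- part I for nondegenerate coefficients -/
theorem part_I13 : Stmt_I13 :=
  stmt_I13 (stmt_LIMA13 full_LIMB full_KF13 full_KW13 full_SMPF full_GRK stmt_CELI)
    full_JC (stmt_GENR full_DUAL) full_REL

/-- part III for nondegenerate coefficients -/
theorem part_III13 : Stmt_III13 :=
  stmt_III13 stmt_GNR
    (stmt_SPEC (stmt_UBD stmt_MW stmt_GOR (stmt_ABS (stmt_NUL stmt_TOR))) (stmt_SEQ stmt_KG))
    stmt_WITA

/-- the monodromy conjecture for the topological zeta functions of nondegenerate polynomials -/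
theorem mc_nondeg (E : EulerMeasure) {n : ℕ} (f : MvPolynomial (Fin n) ℂ)
    (hf : f.totalDegree ≠ 0) (hN : IsNondegenerate f) (R : RatFunc ℚ)
    (hR : IsTopologicalZeta E.toHodgeMeasure f R) : GoodPoles f R :=
  good13_top part_I13 part_III13 (stmt_FACE stmt_MW) E f hf hN R hR

/-- the monodromy conjecture for the twisted topological zeta functions of nondegenerate
polynomials -/
theorem mc_nondeg_tw (E : EulerMeasure) {n : ℕ} (f : MvPolynomial (Fin n) ℂ)
    (hf : f.totalDegree ≠ 0) (hN : IsNondegenerate f) (e : ℕ) (he : 1 ≤ e) (R : RatFunc ℚ)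
    (hR : IsTwTopZeta E.toHodgeMeasure f e R) : GoodPoles f R :=
  good13 part_I13 part_III13 (stmt_FACE stmt_MW) E f hf hN e he R hR

end Pool.Agent.Mono.NP
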