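import Pool.Agent.Work.Monodromy.Interface13
import Pool.Agent.Work.Monodromy12.KF12

/-!
# Phase 13, part I, block KF13: the class of the hypersurface of a face, nondegenerate
coefficients (helper99)
-/

set_option autoImplicit false

namespace Pool.Agent.Mono.NP

open MvPolynomial Filter Topology

namespace KF13Aux

section

variable {ι κ : Type} [Fintype ι] [DecidableEq ι] [Fintype κ] [DecidableEq κ]

set_option linter.unusedSectionVars false

theorem prod_zpow_sum {τ : Type} (s : Finset τ) (y : ℂ) (hy : y ≠ 0) (f : τ → ℤ) :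
    ∏ i ∈ s, y ^ f i = y ^ ∑ i ∈ s, f i := by
  classical
  induction s using Finset.induction_on with
  | empty => simp
  | insert a s ha ih => rw [Finset.prod_insert ha, Finset.sum_insert ha, zpow_add₀ hy, ih]

variable {d m : ℕ} {A : Matrix (Fin d ⊕ Fin m) ι ℤ} {B : Matrix ι (Fin d ⊕ Fin m) ℤ}
  {w : κ → ι → ℕ} {c : κ → Fin d → ℕ} {F : Finset κ} {a₀ : κ}

/-- multiplication by `B` recovers the coordinates -/
theorem contract (hAB : A * B = 1) {R : Type} [CommRing R] (z : Fin d → R) (j : Fin d) :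
    ∑ i, (B i (Sum.inl j) : R) * ∑ j', z j' * (A (Sum.inl j') i : R) = z j := by
  have h1 : ∀ j', ∑ i, (A (Sum.inl j') i : R) * (B i (Sum.inl j) : R) =
      if j' = j then 1 else 0 := by
    intro j'
    have h2 : (A * B) (Sum.inl j') (Sum.inl j) = if j' = j then 1 else 0 := by
      rw [hAB, Matrix.one_apply]
      simp
    rw [Matrix.mul_apply] at h2
    have h3 : ((∑ i, A (Sum.inl j') i * B i (Sum.inl j) : ℤ) : R) =
        ((if j' = j then 1 else 0 : ℤ) : R) := by rw [h2]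
    push_cast at h3
    rw [h3]
  simp only [Finset.mul_sum]
  rw [Finset.sum_comm]
  have h4 : ∀ j', ∑ i, (B i (Sum.inl j) : R) * (z j' * (A (Sum.inl j') i : R)) =
      z j' * ∑ i, (A (Sum.inl j') i : R) * (B i (Sum.inl j) : R) := by
    intro j'
    rw [Finset.mul_sum]
    apply Finset.sum_congr rfl
    intro i _
    ring
  rw [Finset.sum_congr rfl (fun j' _ => h4 j')]
  simp only [h1]
  simp

/-- monomials in adapted coordinates -/
theorem mono_formula (hAB : A * B = 1)
    (hc : ∀ v ∈ F, ∀ i, (w v i : ℤ) - w a₀ i = ∑ j, ((c v j : ℤ) - c a₀ j) * A (Sum.inl j) i)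
    (y : Fin d → ℂ) (hy : ∀ j, y j ≠ 0) :
    ∃ (x : ι → ℂ) (K : ℂ), (∀ i, x i ≠ 0) ∧ K ≠ 0 ∧
      ∀ v ∈ F, ∏ i, x i ^ w v i = K * ∏ j, y j ^ c v j := by
  refine ⟨fun i => ∏ j, y j ^ B i (Sum.inl j),
    ∏ j, y j ^ (∑ i, B i (Sum.inl j) * (w a₀ i : ℤ) - c a₀ j), ?_, ?_, ?_⟩
  · intro i
    exact Finset.prod_ne_zero_iff.2 (fun j _ => zpow_ne_zero _ (hy j))
  · exact Finset.prod_ne_zero_iff.2 (fun j _ => zpow_ne_zero _ (hy j))
  · intro v hv
    have h1 : ∀ i, (∏ j, y j ^ B i (Sum.inl j)) ^ w v i =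
        ∏ j, y j ^ (B i (Sum.inl j) * (w v i : ℤ)) := by
      intro i
      rw [← Finset.prod_pow]
      apply Finset.prod_congr rfl
      intro j _
      rw [← zpow_natCast, ← zpow_mul]
    rw [Finset.prod_congr rfl (fun i _ => h1 i), Finset.prod_comm, ← Finset.prod_mul_distrib]
    apply Finset.prod_congr rfl
    intro j _
    rw [prod_zpow_sum _ _ (hy j), ← zpow_natCast (y j) (c v j), ← zpow_add₀ (hy j)]
    have h2 := contract hAB (fun j => (c v j : ℤ) - c a₀ j) j
    have h3 : ∑ i, (B i (Sum.inl j)) * ((w v i : ℤ) - w a₀ i) = (c v j : ℤ) - c a₀ j := by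
      rw [← h2]
      apply Finset.sum_congr rfl
      intro i _
      rw [hc v hv i]
      simp
    have h4 : ∑ i, B i (Sum.inl j) * (w v i : ℤ) =
        ∑ i, B i (Sum.inl j) * (w a₀ i : ℤ) - c a₀ j + c v j := by
      have h5 : ∑ i, (B i (Sum.inl j)) * ((w v i : ℤ) - w a₀ i) =
          ∑ i, B i (Sum.inl j) * (w v i : ℤ) - ∑ i, B i (Sum.inl j) * (w a₀ i : ℤ) := by
        rw [← Finset.sum_sub_distrib]
        apply Finset.sum_congr rfl
        intro i _
        ring
      linarith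
    rw [h4]

/-- faces of a face are faces -/
theorem face_face (hAB : A * B = 1)
    (hc : ∀ v ∈ F, ∀ i, (w v i : ℤ) - w a₀ i = ∑ j, ((c v j : ℤ) - c a₀ j) * A (Sum.inl j) i)
    (hF : Fce w F) (G : Finset F) (hG : Fc (fun v : F => c v) G) :
    Fce w (G.map (Function.Embedding.subtype _)) := by
  intro μ h1 h2 h3
  have hsub : ∀ v, v ∉ F → v ∉ G.map (Function.Embedding.subtype _) := by
    intro v hv hc'
    obtain ⟨u, _, rfl⟩ := Finset.mem_map.1 hc'
    exact hv u.2
  have hoff : ∀ v, v ∉ F → μ v = 0 := hF μ h1 h2 (fun v hv => h3 v (hsub v hv))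
  have hoff' : ∀ v, v ∉ Set.range (Function.Embedding.subtype (fun v => v ∈ F)) → μ v = 0 := by
    intro v hv
    apply hoff
    intro hvF
    exact hv ⟨⟨v, hvF⟩, rfl⟩
  have hs1 : ∑ v : F, μ v = 0 := by
    rw [← h1]
    exact (KFAux.sum_ext' (Function.Embedding.subtype (fun v => v ∈ F)) μ hoff').symm
  have hs2 : ∀ i, ∑ v : F, μ v * (w v i : ℚ) = 0 := by
    intro i
    rw [← h2 i]
    exact (KFAux.sum_ext (Function.Embedding.subtype (fun v => v ∈ F)) μ hoff'
      (fun v => (w v i : ℚ))).symm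
  -- the coordinates
  have hz : ∀ j : Fin d, ∑ v : F, μ v * ((c v j : ℚ) - c a₀ j) = 0 := by
    intro j
    have h4 := contract hAB (fun j => ∑ v : F, μ v * ((c v j : ℚ) - c a₀ j)) j
    rw [← h4]
    apply Finset.sum_eq_zero
    intro i _
    have h5 : ∑ j', (∑ v : F, μ v * ((c v j' : ℚ) - c a₀ j')) * (A (Sum.inl j') i : ℚ) =
        ∑ v : F, μ v * ((w v i : ℚ) - w a₀ i) := by
      simp only [Finset.sum_mul]
      rw [Finset.sum_comm]
      apply Finset.sum_congr rfl
      intro v _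
      have h6 : ((w v i : ℚ) - w a₀ i) =
          ∑ j, ((c v j : ℚ) - c a₀ j) * (A (Sum.inl j) i : ℚ) := by
        have h7 : (((w v i : ℤ) - w a₀ i : ℤ) : ℚ) =
            ((∑ j, ((c v j : ℤ) - c a₀ j) * A (Sum.inl j) i : ℤ) : ℚ) := by
          rw [hc v v.2 i]
        push_cast at h7
        exact h7
      rw [h6, Finset.mul_sum]
      apply Finset.sum_congr rfl
      intro j' _
      ring
    rw [h5]
    have h8 : ∑ v : F, μ v * ((w v i : ℚ) - w a₀ i) =
        ∑ v : F, μ v * (w v i : ℚ) - (∑ v : F, μ v) * (w a₀ i : ℚ) := by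
      rw [Finset.sum_mul, ← Finset.sum_sub_distrib]
      apply Finset.sum_congr rfl
      intro v _
      ring
    rw [h8, hs1, hs2]
    ring
  have hs3 : ∀ j, ∑ v : F, μ v * (c v j : ℚ) = 0 := by
    intro j
    have h9 : ∑ v : F, μ v * ((c v j : ℚ) - c a₀ j) =
        ∑ v : F, μ v * (c v j : ℚ) - (∑ v : F, μ v) * (c a₀ j : ℚ) := by
      rw [Finset.sum_mul, ← Finset.sum_sub_distrib]
      apply Finset.sum_congr rfl
      intro v _
      ring
    have h10 := hz j
    rw [h9, hs1] at h10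
    linarith
  have hfin := hG (fun v : F => μ v) hs1 hs3 (by
    intro v hv
    apply h3
    intro hc'
    exact hv ((Finset.mem_map' _).1 hc'))
  intro v hv
  by_cases hvF : v ∈ F
  · refine hfin ⟨v, hvF⟩ ?_
    intro hc'
    exact hv (Finset.mem_map.2 ⟨⟨v, hvF⟩, hc', rfl⟩)
  · exact hoff v hvF

/-- nondegeneracy in adapted coordinates -/
theorem nondeg (hAB : A * B = 1)
    (hc : ∀ v ∈ F, ∀ i, (w v i : ℤ) - w a₀ i = ∑ j, ((c v j : ℤ) - c a₀ j) * A (Sum.inl j) i)
    (hF : Fce w F) (a : κ → ℂ) (hNd : NdP w a) (G : Finset F) (hGne : G.Nonempty)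
    (hG : Fc (fun v : F => c v) G) (y : Fin d → ℂ) (hy : ∀ j, y j ≠ 0)
    (h1 : ∑ v ∈ G, a v * ∏ j, y j ^ c v j = 0)
    (h2 : ∀ j, ∑ v ∈ G, a v * (c v j : ℂ) * ∏ j, y j ^ c v j = 0) : False := by
  obtain ⟨x, K, hx, hK, hmon⟩ := mono_formula hAB hc y hy
  obtain ⟨i, hi⟩ := hNd (G.map (Function.Embedding.subtype _)) (hGne.map)
    (face_face hAB hc hF G hG) x hx (by
      rw [Finset.sum_map]
      have h3 : ∀ v ∈ G, a (Function.Embedding.subtype (fun v => v ∈ F) v) *
          ∏ i, x i ^ w (Function.Embedding.subtype (fun v => v ∈ F) v) i =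
          K * (a v * ∏ j, y j ^ c v j) := by
        intro v _
        have h4 : (Function.Embedding.subtype (fun v => v ∈ F) v) = (v : κ) := rfl
        rw [h4, hmon v v.2]
        ring
      rw [Finset.sum_congr rfl h3, ← Finset.mul_sum, h1, mul_zero])
  apply hi
  rw [Finset.sum_map]
  have h5 : ∀ v ∈ G, (w (Function.Embedding.subtype (fun v => v ∈ F) v) i : ℂ) *
      (a (Function.Embedding.subtype (fun v => v ∈ F) v) *
        ∏ i', x i' ^ w (Function.Embedding.subtype (fun v => v ∈ F) v) i') =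
      K * (((w a₀ i : ℂ) - ∑ j, (c a₀ j : ℂ) * (A (Sum.inl j) i : ℂ)) *
        (a v * ∏ j, y j ^ c v j)) +
      K * ∑ j, (A (Sum.inl j) i : ℂ) * (a v * (c v j : ℂ) * ∏ j, y j ^ c v j) := by
    intro v _
    have h4 : (Function.Embedding.subtype (fun v => v ∈ F) v) = (v : κ) := rfl
    rw [h4, hmon v v.2]
    have h6 : (w v i : ℂ) = (w a₀ i : ℂ) +
        ∑ j, ((c v j : ℂ) - c a₀ j) * (A (Sum.inl j) i : ℂ) := by
      have h7 : (((w v i : ℤ) - w a₀ i : ℤ) : ℂ) =
          ((∑ j, ((c v j : ℤ) - c a₀ j) * A (Sum.inl j) i : ℤ) : ℂ) := by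
        rw [hc v v.2 i]
      push_cast at h7
      linear_combination h7
    have h8 : ∑ j, ((c v j : ℂ) - c a₀ j) * (A (Sum.inl j) i : ℂ) =
        ∑ j, (c v j : ℂ) * (A (Sum.inl j) i : ℂ) - ∑ j, (c a₀ j : ℂ) * (A (Sum.inl j) i : ℂ) := by
      rw [← Finset.sum_sub_distrib]
      apply Finset.sum_congr rfl
      intro j _
      ring
    have h9 : ∑ j, (A (Sum.inl j) i : ℂ) * (a v * (c v j : ℂ) * ∏ j, y j ^ c v j) =
        (∑ j, (c v j : ℂ) * (A (Sum.inl j) i : ℂ)) * (a v * ∏ j, y j ^ c v j) := by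
      rw [Finset.sum_mul]
      apply Finset.sum_congr rfl
      intro j _
      ring
    rw [h6, h8, h9]
    ring
  rw [Finset.sum_congr rfl h5, Finset.sum_add_distrib, ← Finset.mul_sum, ← Finset.mul_sum,
    ← Finset.mul_sum, h1, mul_zero, mul_zero, zero_add, Finset.sum_comm]
  have h10 : ∀ j, ∑ v ∈ G, (A (Sum.inl j) i : ℂ) * (a v * (c v j : ℂ) * ∏ j, y j ^ c v j) = 0 := by
    intro j
    rw [← Finset.mul_sum, h2 j, mul_zero]
  rw [Finset.sum_eq_zero (fun j _ => h10 j), mul_zero]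

end

end KF13Aux

/-- block KF13 -/
theorem stmt_KF13 (hK : Stmt_K13) (hADB : Stmt_ADB) (hTORM : Stmt_TORM) (hTORC : Stmt_TORC)
    (hVOLB : Stmt_VOLB) : Stmt_KF13 := by
  classical
  intro E ι κ _ _ _ _ w a h F hFne hFce hw hNd hh
  obtain ⟨a₀, ha₀⟩ := hFne
  obtain ⟨d, m, A, B, c, hAB, hBA, hd, hm, hc, hrk⟩ := hADB ι κ w F a₀ ha₀
  have hval := hTORM ι κ w a F a₀ d m A B c ha₀ hAB hBA hc (Polynomial ℤ) E.toMotivicMeasure
  obtain ⟨hsmp, hnu⟩ := hTORC ι κ w h F a₀ d m A B c ha₀ hAB hBA hc (by rw [hrk, hd])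
  have hL : E.toMotivicMeasure.L = Polynomial.X := E.line
  refine ⟨E.val (VF c a F), ?_, ?_, ?_⟩
  · have h1 : Fintype.card ι + 1 - rk w F = m := by omega
    rw [h1, hval, hL]
  · intro h1
    have hd0 : d = 0 := by omega
    subst hd0
    have hF1 : ∀ v ∈ F, v = a₀ := by
      intro v hv
      apply hw
      funext i
      have h2 := hc v hv i
      simp only [Finset.univ_eq_empty, Finset.sum_empty] at h2
      omega
    have hF2 : F = {a₀} := Finset.eq_singleton_iff_unique_mem.2 ⟨ha₀, hF1⟩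
    have hane : a a₀ ≠ 0 := by
      intro ha0
      obtain ⟨i, hi⟩ := hNd F ⟨a₀, ha₀⟩ hFce (fun _ => 1) (fun _ => one_ne_zero) (by
        rw [hF2, Finset.sum_singleton, ha0, zero_mul])
      apply hi
      rw [hF2, Finset.sum_singleton, ha0, zero_mul, mul_zero]
    have h2 : VF c a F = ∅ := by
      rw [Set.eq_empty_iff_forall_notMem]
      rintro x ⟨_, hx⟩
      rw [hF2, Finset.sum_singleton] at hx
      simp only [Finset.univ_eq_empty, Finset.prod_empty, mul_one] at hx
      exact hane hx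
    rw [h2]
    exact X0.val_empty E.toMotivicMeasure
  · intro h2
    have hd1 : 1 ≤ d := by omega
    let f : F ↪ κ := Function.Embedding.subtype _
    have hfF : (Finset.univ : Finset F).map f = F := by
      rw [Finset.univ_eq_attach]
      exact Finset.attach_map_val
    have hrk' : rk (fun v : F => c (f v)) Finset.univ = d + 1 := by
      rw [KFAux.rk_map f c, hfF, hrk]
    have hh' : LinearIndependent ℚ fun v : F => h (f v) := hh.comp f f.injective
    obtain ⟨hFD, hVol⟩ := hVOLB F d (fun v => c (f v)) (fun v => h (f v)) hrk' hh'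
    have hNdI : NdI (fun v : F => c (f v)) (fun v => a (f v)) := by
      intro G hG1 _ hG3 y hy hcon
      exact KF13Aux.nondeg hAB hc hFce a hNd G hG1 hG3 y hy hcon.1 hcon.2
    have hNds : Nds (fun v : F => c (f v)) (fun v => a (f v)) = ∅ := by
      rw [Set.eq_empty_iff_forall_notMem]
      rintro y ⟨hy1, hy2, hy3⟩
      refine KF13Aux.nondeg hAB hc hFce a hNd Finset.univ ⟨⟨a₀, ha₀⟩, Finset.mem_univ _⟩ ?_
        y hy1 hy2 hy3
      intro μ _ _ _ v hv
      exact absurd (Finset.mem_univ v) hv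
    have hKK := hK E F d (fun v => c (f v)) (fun v => a (f v)) (fun v => h (f v)) hd1 hFD hNdI
      hNds hh'
    have hset : Hyp (fun v : F => c (f v)) (fun v => a (f v)) = VF c a F := by
      ext x
      have h3 : sm (fun v : F => c (f v)) (fun v => a (f v)) x =
          ∑ v ∈ F, a v * ∏ i, x i ^ c v i := by
        simp only [sm, mn]
        exact Finset.sum_coe_sort F fun v => a v * ∏ i, x i ^ c v i
      constructor
      · rintro ⟨h4, h5⟩
        exact ⟨h4, h3.symm.trans h5⟩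
      · rintro ⟨h4, h5⟩
        exact ⟨h4, h3.trans h5⟩
    rw [hset, hVol] at hKK
    have hsum : ∑ C ∈ smp (fun v : F => c (f v)) (fun v => h (f v)) Finset.univ,
        (nuE (fun v : F => c (f v)) 1 C : ℤ) = ∑ C ∈ smp w h F, (nuE w 1 C : ℤ) := by
      rw [KFAux.sum_smp_nuE f c h, hfF, hsmp]
      apply Finset.sum_congr rfl
      intro C hC
      rw [hnu C (KFAux.smp_subset w h F C hC)]
    have hsumQ : ∑ C ∈ smp (fun v : F => c (f v)) (fun v => h (f v)) Finset.univ,
        (nuE (fun v : F => c (f v)) 1 C : ℚ) = ((∑ C ∈ smp w h F, (nuE w 1 C : ℤ) : ℤ) : ℚ) := by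
      rw [← hsum]
      push_cast
      rfl
    rw [hsumQ] at hKK
    have hsign : ((-1 : ℚ)) ^ (d - 1) = (-1) ^ rk w F := by
      have h5 : rk w F = (d - 1) + 2 := by omega
      rw [h5, pow_add]
      norm_num
    rw [hsign] at hKK
    exact_mod_cast hKK

end Pool.Agent.Mono.NP
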